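import Pool.Agent.Lib.MP_aefbf4_co.Tree

/-!
Breaker wins the `(6,2)`-game on the tree from every root.
-/

namespace Pool.Agent.Lib.MP_aefbf4_co

open Classical

/-- Directed paths between adjacent hubs: `(false, z)` leads from the parent of the hub `z` to
`z`, and `(true, z)` leads from `z` to its parent (`z ≠ []`). -/
abbrev Br := Bool × Hub

def near : Br → Hub
  | (false, z) => z.tail
  | (true, z) => z

def far : Br → Hub
  | (false, z) => z
  | (true, z) => z.tail

/-- The set of (indices of) paths in the part of the tree entered through `b`. -/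
def In : Br → Hub → Prop
  | (false, z), u => z <:+ u
  | (true, z), u => ¬ z <:+ u ∨ u = z

/-- The edges in the part of the tree entered through `b`. -/
def EB (b : Br) : Set (Sym2 Vtx) := {x | ∃ u i, ((u, i) : Vtx) ≠ top ∧ In b u ∧ x = ed (u, i)}

/-- The directed paths starting at a hub. -/
def star (x : Hub) : Finset Br :=
  Finset.univ.image (fun c : Fin 4 => ((false, c :: x) : Br)) ∪ if x = [] then ∅ else {(true, x)}

def rev (b : Br) : Br := (!b.1, b.2)

/-- The number of edges of `S` in the part of the tree entered through `b`. -/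
noncomputable def wt (S : Finset (Sym2 Vtx)) (b : Br) : ℕ := (S.filter (fun x => x ∈ EB b)).card

theorem mem_star {x : Hub} {b : Br} : b ∈ star x ↔ b.2 ≠ [] ∧ near b = x := by
  obtain ⟨d, z⟩ := b
  cases d with
  | false =>
    simp only [star, near, Finset.mem_union, Finset.mem_image, Finset.mem_univ, true_and]
    constructor
    · rintro (⟨c, hc⟩ | h)
      · simp only [Prod.mk.injEq, true_and] at hc
        rw [← hc]; simp
      · split_ifs at h <;> simp at h
    · rintro ⟨h1, h2⟩
      left
      cases z with
      | nil => exact absurd rfl h1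
      | cons c y => exact ⟨c, by simp at h2; rw [h2]⟩
  | true =>
    simp only [star, near, Finset.mem_union, Finset.mem_image, Finset.mem_univ, true_and]
    constructor
    · rintro (⟨c, hc⟩ | h)
      · simp at hc
      · split_ifs at h with hx
        · simp at h
        · simp only [Finset.mem_singleton, Prod.mk.injEq, true_and] at h
          rw [h]; exact ⟨hx, rfl⟩
    · rintro ⟨h1, h2⟩
      right
      subst h2
      rw [if_neg h1]; simp

theorem card_star (x : Hub) : (star x).card ≤ 5 := by
  unfold star
  refine (Finset.card_union_le _ _).trans ?_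
  have h1 : (Finset.univ.image (fun c : Fin 4 => ((false, c :: x) : Br))).card ≤ 4 :=
    Finset.card_image_le.trans (by simp)
  have h2 : (if x = [] then (∅ : Finset Br) else {(true, x)}).card ≤ 1 := by
    split_ifs <;> simp
  omega

theorem star_disj {x : Hub} {b b' : Br} (hb : b ∈ star x) (hb' : b' ∈ star x) (hne : b ≠ b')
    (u : Hub) : ¬ (In b u ∧ In b' u) := by
  rw [mem_star] at hb hb'
  obtain ⟨d, z⟩ := b
  obtain ⟨d', z'⟩ := b'
  obtain ⟨h1, h2⟩ := hb
  obtain ⟨h1', h2'⟩ := hb'
  cases d <;> cases d' <;> simp only [near, In, ne_eq] at *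
  · -- two downward paths
    rintro ⟨hu, hu'⟩
    apply hne
    have hl : z.length = z'.length := by
      have := congrArg List.length (h2.trans h2'.symm)
      simp only [List.length_tail] at this
      have p1 : 0 < z.length := List.length_pos_of_ne_nil h1
      have p2 : 0 < z'.length := List.length_pos_of_ne_nil h1'
      omega
    rcases List.suffix_or_suffix_of_suffix hu hu' with h3 | h3
    · rw [h3.eq_of_length hl]
    · rw [h3.eq_of_length hl.symm]
  · -- `z` down, `z'` up
    subst h2'
    rintro ⟨hu, hu' | hu'⟩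
    · apply hu'
      rw [← h2]
      exact (List.tail_suffix z).trans hu
    · rw [hu'] at hu
      have := hu.length_le
      rw [← h2] at this
      simp only [List.length_tail] at this
      have p1 : 0 < z.length := List.length_pos_of_ne_nil h1
      omega
  · subst h2
    rintro ⟨hu | hu, hu'⟩
    · apply hu
      rw [← h2']
      exact (List.tail_suffix z').trans hu'
    · rw [hu] at hu'
      have := hu'.length_le
      rw [← h2'] at this
      simp only [List.length_tail] at this
      have p1 : 0 < z'.length := List.length_pos_of_ne_nil h1'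
      omega
  · exact absurd (by rw [h2, h2']) hne

theorem rev_mem_star {b : Br} (hb : b.2 ≠ []) : rev b ∈ star (far b) := by
  rw [mem_star]
  obtain ⟨d, z⟩ := b
  cases d <;> exact ⟨hb, rfl⟩

theorem near_rev (b : Br) : far (rev b) = near b := by
  obtain ⟨d, z⟩ := b
  cases d <;> rfl

/-- The paths which continue `b`. -/
noncomputable def succB (b : Br) : Finset Br := (star (far b)).erase (rev b)

theorem card_succB {b : Br} (hb : b.2 ≠ []) : (succB b).card ≤ 4 := by
  unfold succB
  rw [Finset.card_erase_of_mem (rev_mem_star hb)]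
  have := card_star (far b)
  omega

theorem In_succB {b b' : Br} (hb : b.2 ≠ []) (hb' : b' ∈ succB b) {u : Hub} (hu : In b' u) :
    In b u ∧ u ≠ b.2 := by
  unfold succB at hb'
  obtain ⟨hne, hst⟩ := Finset.mem_erase.1 hb'
  rw [mem_star] at hst
  obtain ⟨d, z⟩ := b
  obtain ⟨d', z'⟩ := b'
  obtain ⟨h1, h2⟩ := hst
  cases d <;> cases d' <;> simp only [near, In, far, rev, Bool.not_false, Bool.not_true,
    ne_eq, Prod.mk.injEq, true_and, false_and, not_false_eq_true, reduceCtorEq] at *
  · -- down, down
    refine ⟨?_, ?_⟩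
    · rw [← h2]; exact (List.tail_suffix z').trans hu
    · intro huz
      rw [huz] at hu
      have := hu.length_le
      rw [← h2] at this
      simp only [List.length_tail] at this
      have p1 : 0 < z'.length := List.length_pos_of_ne_nil h1
      omega
  · -- down, up : excluded
    exact absurd h2 hne
  · -- up, down
    have hlen : z'.length = z.length := by
      have := congrArg List.length h2
      simp only [List.length_tail] at this
      have p1 : 0 < z.length := List.length_pos_of_ne_nil hb
      have p2 : 0 < z'.length := List.length_pos_of_ne_nil h1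
      omega
    have hns : ¬ z <:+ u := by
      intro hs
      rcases List.suffix_or_suffix_of_suffix hu hs with h3 | h3
      · exact hne (h3.eq_of_length hlen)
      · exact hne (h3.eq_of_length hlen.symm).symm
    refine ⟨Or.inl hns, ?_⟩
    intro h
    exact hns (h ▸ List.suffix_refl _)
  · -- up, up
    subst h2
    have hns : ¬ z <:+ u := by
      intro hs
      have h3 : z.tail <:+ u := (List.tail_suffix z).trans hs
      rcases hu with hu | hu
      · exact hu h3
      · rw [hu] at hs
        have := hs.length_le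
        simp only [List.length_tail] at this
        have p1 : 0 < z.length := List.length_pos_of_ne_nil hb
        omega
    refine ⟨Or.inl hns, ?_⟩
    intro h
    exact hns (h ▸ List.suffix_refl _)

theorem succB_disj {b b₁ b₂ : Br} (h1 : b₁ ∈ succB b) (h2 : b₂ ∈ succB b) (hne : b₁ ≠ b₂)
    (u : Hub) : ¬ (In b₁ u ∧ In b₂ u) :=
  star_disj (Finset.mem_of_mem_erase h1) (Finset.mem_of_mem_erase h2) hne u

theorem EB_disj {b b' : Br} (h : ∀ u, ¬ (In b u ∧ In b' u)) (x : Sym2 Vtx) :
    ¬ (x ∈ EB b ∧ x ∈ EB b') := by
  rintro ⟨⟨u, i, hu, hI, hx⟩, ⟨u', i', hu', hI', hx'⟩⟩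
  have := ed_inj hu hu' (hx.symm.trans hx')
  simp only [Prod.mk.injEq] at this
  rw [← this.1] at hI'
  exact h u ⟨hI, hI'⟩

/-- the sum of the weights over a family with disjoint parts -/
theorem sum_wt (S : Finset (Sym2 Vtx)) (O : Finset Br)
    (hO : ∀ b ∈ O, ∀ b' ∈ O, b ≠ b' → ∀ u, ¬ (In b u ∧ In b' u)) :
    ∑ b ∈ O, wt S b = (O.biUnion (fun b => S.filter (fun x => x ∈ EB b))).card := by
  unfold wt
  rw [Finset.card_biUnion]
  intro b hb b' hb' hne
  rw [Function.onFun, Finset.disjoint_left]
  intro x hx hx'
  exact EB_disj (hO b hb b' hb' hne) x ⟨(Finset.mem_filter.1 hx).2, (Finset.mem_filter.1 hx').2⟩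

theorem sum_wt_le (S : Finset (Sym2 Vtx)) (O : Finset Br)
    (hO : ∀ b ∈ O, ∀ b' ∈ O, b ≠ b' → ∀ u, ¬ (In b u ∧ In b' u)) :
    ∑ b ∈ O, wt S b ≤ S.card := by
  rw [sum_wt S O hO]
  refine Finset.card_le_card ?_
  intro x hx
  obtain ⟨b, -, hx⟩ := Finset.mem_biUnion.1 hx
  exact (Finset.mem_filter.1 hx).1

theorem wt_union (S S' : Finset (Sym2 Vtx)) (b : Br) : wt (S ∪ S') b ≤ wt S b + wt S' b := by
  unfold wt
  rw [Finset.filter_union]
  exact Finset.card_union_le _ _

/-- The seven edges of the path of `b`. -/
noncomputable def pathE (z : Hub) : Finset (Sym2 Vtx) := Finset.univ.image (fun i : Fin 7 => ed (z, i))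

theorem card_pathE {z : Hub} (hz : z ≠ []) : (pathE z).card = 7 := by
  unfold pathE
  rw [Finset.card_image_of_injective]
  · simp
  · intro i j h
    have := ed_inj (ne_top_of_ne_nil hz i) (ne_top_of_ne_nil hz j) h
    simpa using this

theorem pathE_sub_EB {b : Br} (hb : b.2 ≠ []) {x : Sym2 Vtx} (hx : x ∈ pathE b.2) : x ∈ EB b := by
  obtain ⟨i, -, rfl⟩ := Finset.mem_image.1 hx
  refine ⟨b.2, i, ne_top_of_ne_nil hb i, ?_, rfl⟩
  obtain ⟨d, z⟩ := b
  cases d
  · exact List.suffix_refl z
  · exact Or.inr rfl

/-- A completed path has weight at least `7`, and the weights of its continuations add up to at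
most its weight minus `7`. -/
theorem sum_succB (S : Finset (Sym2 Vtx)) {b : Br} (hb : b.2 ≠ []) (hS : pathE b.2 ⊆ S) :
    (∑ b' ∈ succB b, wt S b') + 7 ≤ wt S b := by
  have hc := card_pathE hb
  rw [sum_wt S (succB b) (fun b₁ h1 b₂ h2 hne => succB_disj h1 h2 hne)]
  have hd : Disjoint ((succB b).biUnion (fun b => S.filter (fun x => x ∈ EB b))) (pathE b.2) := ?_
  have hu := Finset.card_union_of_disjoint hd
  rw [hc] at hu
  rw [← hu]
  · refine Finset.card_le_card ?_
    intro x hx
    rcases Finset.mem_union.1 hx with hx | hx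
    · obtain ⟨b', hb', hx⟩ := Finset.mem_biUnion.1 hx
      obtain ⟨hxS, u, i, hu, hI, rfl⟩ := Finset.mem_filter.1 hx
      exact Finset.mem_filter.2 ⟨hxS, u, i, hu, (In_succB hb hb' hI).1, rfl⟩
    · exact Finset.mem_filter.2 ⟨hS hx, pathE_sub_EB hb hx⟩
  · rw [Finset.disjoint_left]
    intro x hx hx'
    obtain ⟨b', hb', hx⟩ := Finset.mem_biUnion.1 hx
    obtain ⟨hxS, u, i, hu, hI, rfl⟩ := Finset.mem_filter.1 hx
    obtain ⟨j, -, hj⟩ := Finset.mem_image.1 hx'
    have := ed_inj (ne_top_of_ne_nil hb j) hu hj
    simp only [Prod.mk.injEq] at this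
    exact (In_succB hb hb' hI).2 this.1.symm

/-- `C` is a set of hubs such that every path leaving it belongs to the family `O`
of open paths or contains an edge of Breaker; the parts entered through different members of `O`
are disjoint. -/
structure Cfg (B : Finset (Sym2 Vtx)) (C : Finset Hub) (O : Finset Br) : Prop where
  valid : ∀ b ∈ O, b.2 ≠ []
  near_mem : ∀ b ∈ O, near b ∈ C
  closed : ∀ b : Br, b.2 ≠ [] → near b ∈ C → far b ∈ C ∨ b ∈ O ∨ ∃ i, ed (b.2, i) ∈ B
  disj : ∀ b ∈ O, ∀ b' ∈ O, b ≠ b' → ∀ u, ¬ (In b u ∧ In b' u)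

theorem Cfg.start (x : Hub) : Cfg ∅ {x} (star x) where
  valid := fun b hb => (mem_star.1 hb).1
  near_mem := fun b hb => by simp [(mem_star.1 hb).2]
  closed := fun b hb hn => Or.inr (Or.inl (mem_star.2 ⟨hb, by simpa using hn⟩))
  disj := fun b hb b' hb' hne => star_disj hb hb' hne

/-- Breaker cuts the paths in `K`. -/
theorem Cfg.kill {M B : Finset (Sym2 Vtx)} {C : Finset Hub} {O : Finset Br} (h : Cfg B C O)
    {K : Finset Br} (hK : K ⊆ O) (hcard : K.card ≤ 2) (hinc : ∀ b ∈ K, ¬ pathE b.2 ⊆ M) :
    ∃ r, Legal T 2 (M ∪ B) r ∧ Cfg (B ∪ r) C (O \ K) := by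
  have hex : ∀ b ∈ K, ∃ i : Fin 7, ed (b.2, i) ∉ M := by
    intro b hb
    by_contra hcon
    push Not at hcon
    apply hinc b hb
    intro x hx
    obtain ⟨i, -, rfl⟩ := Finset.mem_image.1 hx
    exact hcon i
  choose! f hf using hex
  let S : Finset (Sym2 Vtx) := (K.image (fun b => ed (b.2, f b))) \ B
  obtain ⟨r, hr, hSr⟩ := exists_legal_superset T T_edgeSet_infinite 2 (M ∪ B) S
    (by
      intro x hx
      obtain ⟨hx1, -⟩ := Finset.mem_sdiff.1 hx
      obtain ⟨b, hb, rfl⟩ := Finset.mem_image.1 hx1
      exact ed_mem _ (ne_top_of_ne_nil (h.valid b (hK hb)) _))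
    (by
      intro x hx hc
      obtain ⟨hx1, hx2⟩ := Finset.mem_sdiff.1 hx
      obtain ⟨b, hb, rfl⟩ := Finset.mem_image.1 hx1
      rcases Finset.mem_union.1 hc with h1 | h1
      · exact hf b hb h1
      · exact hx2 h1)
    ((Finset.card_le_card Finset.sdiff_subset).trans (Finset.card_image_le.trans hcard))
  refine ⟨r, hr, ?_, ?_, ?_, ?_⟩
  · exact fun b hb => h.valid b (Finset.mem_sdiff.1 hb).1
  · exact fun b hb => h.near_mem b (Finset.mem_sdiff.1 hb).1
  · intro b hb hn
    rcases h.closed b hb hn with h1 | h1 | ⟨i, h1⟩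
    · exact Or.inl h1
    · by_cases hbK : b ∈ K
      · right; right
        refine ⟨f b, ?_⟩
        by_cases hB : ed (b.2, f b) ∈ B
        · exact Finset.mem_union_left _ hB
        · exact Finset.mem_union_right _ (hSr (Finset.mem_sdiff.2
            ⟨Finset.mem_image_of_mem _ hbK, hB⟩))
      · exact Or.inr (Or.inl (Finset.mem_sdiff.2 ⟨h1, hbK⟩))
    · exact Or.inr (Or.inr ⟨i, Finset.mem_union_left _ h1⟩)
  · exact fun b hb b' hb' => h.disj b (Finset.mem_sdiff.1 hb).1 b' (Finset.mem_sdiff.1 hb').1

/-- Maker has completed the path of `b`. -/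
theorem Cfg.complete {B : Finset (Sym2 Vtx)} {C : Finset Hub} {O : Finset Br} (h : Cfg B C O)
    {b : Br} (hb : b ∈ O) : Cfg B (insert (far b) C) (O.erase b ∪ succB b) := by
  have hv := h.valid b hb
  refine ⟨?_, ?_, ?_, ?_⟩
  · intro b' hb'
    rcases Finset.mem_union.1 hb' with h1 | h1
    · exact h.valid b' (Finset.mem_of_mem_erase h1)
    · exact (mem_star.1 (Finset.mem_of_mem_erase h1)).1
  · intro b' hb'
    rcases Finset.mem_union.1 hb' with h1 | h1
    · exact Finset.mem_insert_of_mem (h.near_mem b' (Finset.mem_of_mem_erase h1))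
    · rw [(mem_star.1 (Finset.mem_of_mem_erase h1)).2]
      exact Finset.mem_insert_self _ _
  · intro b' hb' hn
    rcases Finset.mem_insert.1 hn with h1 | h1
    · by_cases hr : b' = rev b
      · left
        rw [hr, near_rev]
        exact Finset.mem_insert_of_mem (h.near_mem b hb)
      · right; left
        exact Finset.mem_union_right _ (Finset.mem_erase.2 ⟨hr, mem_star.2 ⟨hb', h1⟩⟩)
    · rcases h.closed b' hb' h1 with h2 | h2 | h2
      · exact Or.inl (Finset.mem_insert_of_mem h2)
      · by_cases hbb : b' = b
        · left; rw [hbb]; exact Finset.mem_insert_self _ _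
        · exact Or.inr (Or.inl (Finset.mem_union_left _ (Finset.mem_erase.2 ⟨hbb, h2⟩)))
      · exact Or.inr (Or.inr h2)
  · intro b₁ h1 b₂ h2 hne u
    rcases Finset.mem_union.1 h1 with h1 | h1 <;> rcases Finset.mem_union.1 h2 with h2 | h2
    · exact h.disj b₁ (Finset.mem_of_mem_erase h1) b₂ (Finset.mem_of_mem_erase h2) hne u
    · rintro ⟨i1, i2⟩
      exact h.disj b₁ (Finset.mem_of_mem_erase h1) b hb (Finset.ne_of_mem_erase h1) u
        ⟨i1, (In_succB hv h2 i2).1⟩
    · rintro ⟨i1, i2⟩
      exact h.disj b₂ (Finset.mem_of_mem_erase h2) b hb (Finset.ne_of_mem_erase h2) u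
        ⟨i2, (In_succB hv h1 i1).1⟩
    · exact succB_disj h1 h2 hne u

/-- A finite region closed under the edges which are not Breaker's contains the component. -/
theorem comp_finite_of_region {B : Finset (Sym2 Vtx)} {R : Set Vtx} {v₀ : Vtx} (hR : R.Finite)
    (h0 : v₀ ∈ R) (hstep : ∀ u ∈ R, ∀ v, T.Adj u v → s(u, v) ∉ B → v ∈ R) :
    (comp T v₀ B).Finite := by
  refine hR.subset ?_
  intro v hv
  have hv' : (T.deleteEdges (B : Set (Sym2 Vtx))).Reachable v₀ v := hv
  rw [SimpleGraph.reachable_iff_reflTransGen] at hv'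
  clear hv
  induction hv' with
  | refl => exact h0
  | tail hab hbc ih =>
    rw [SimpleGraph.deleteEdges_adj] at hbc
    exact hstep _ ih _ hbc.1 (by simpa using hbc.2)

/-- If no path is open, the component is finite. -/
theorem Cfg.finite {B : Finset (Sym2 Vtx)} {C : Finset Hub} (h : Cfg B C ∅) {x : Hub}
    (hx : x ∈ C) : (comp T (x, 0) B).Finite := by
  -- the region which contains the component
  let R : Set Vtx := {v | (v.1 ∈ C ∧ ∀ j < v.2, ed (v.1, j) ∉ B) ∨
    (v.1 ≠ [] ∧ v.1.tail ∈ C ∧ ∀ j, v.2 ≤ j → ed (v.1, j) ∉ B)}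
  have hRfin : R.Finite := by
    have h1 : R ⊆ ((C ∪ C.biUnion (fun y => Finset.univ.image (fun c : Fin 4 => c :: y))) ×ˢ
        (Finset.univ : Finset (Fin 7)) : Finset Vtx) := by
      rintro ⟨z, i⟩ hz
      simp only [Finset.coe_product, Set.mem_prod, Finset.mem_coe, Finset.mem_union,
        Finset.mem_biUnion, Finset.mem_image, Finset.mem_univ, true_and, and_true]
      rcases hz with hz | hz
      · exact Or.inl hz.1
      · right
        cases z with
        | nil => exact absurd rfl hz.1
        | cons c y => exact ⟨y, hz.2.1, c, rfl⟩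
    exact (Finset.finite_toSet _).subset h1
  have hstep : ∀ u ∈ R, ∀ v, T.Adj u v → s(u, v) ∉ B → v ∈ R := by
    rintro ⟨z, i⟩ hu v hadj hB
    rw [adj_iff] at hadj
    rcases hadj with ⟨hnt, hp⟩ | ⟨hnt, hp⟩
    · -- going up
      have hB' : ed (z, i) ∉ B := by rw [ed, hp]; exact hB
      by_cases hi : i.val < 6
      · rw [par_lt z i hi] at hp
        subst hp
        rcases hu with ⟨h1, h2⟩ | ⟨h1, h2, h3⟩
        · left
          refine ⟨h1, ?_⟩
          intro j hj
          by_cases hji : j = i
          · rw [hji]; exact hB'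
          · apply h2 j
            rw [Fin.lt_def] at hj ⊢
            simp only at hj ⊢
            have : j.val ≠ i.val := fun h' => hji (Fin.ext h')
            omega
        · right
          refine ⟨h1, h2, ?_⟩
          intro j hj
          apply h3 j
          rw [Fin.le_def] at hj ⊢
          simp only at hj ⊢
          omega
      · have hi6 : i = 6 := by ext; simp; omega
        subst hi6
        cases z with
        | nil => exact absurd rfl hnt
        | cons c y =>
          rw [par_cons] at hp
          subst hp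
          have hy : y ∈ C := by
            rcases hu with ⟨h1, h2⟩ | ⟨h1, h2, h3⟩
            · rcases h.closed (true, c :: y) (by simp) h1 with h4 | h4 | ⟨j, h4⟩
              · exact h4
              · simp at h4
              · exfalso
                by_cases hj : j = 6
                · rw [hj] at h4; exact hB' h4
                · refine h2 j ?_ h4
                  rw [Fin.lt_def]
                  have : j.val ≠ 6 := fun h' => hj (Fin.ext h')
                  have := j.isLt
                  simp only [Fin.isValue, Fin.val_ofNat]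
                  simp
                  omega
            · exact h2
          left
          refine ⟨hy, ?_⟩
          intro j hj
          exact absurd hj (Fin.not_lt_zero j)
    · -- going down
      have hB' : ed v ∉ B := by rw [ed, hp, Sym2.eq_swap]; exact hB
      rcases child_cases hnt hp with ⟨j, hj, rfl⟩ | ⟨hi0, c, rfl⟩
      · rcases hu with ⟨h1, h2⟩ | ⟨h1, h2, h3⟩
        · left
          refine ⟨h1, ?_⟩
          intro k hk
          apply h2 k
          rw [Fin.lt_def] at hk ⊢
          simp only at hk ⊢
          omega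
        · right
          refine ⟨h1, h2, ?_⟩
          intro k hk
          by_cases hkj : k = j
          · rw [hkj]; exact hB'
          · apply h3 k
            rw [Fin.le_def] at hk ⊢
            simp only at hk ⊢
            have : k.val ≠ j.val := fun h' => hkj (Fin.ext h')
            omega
      · subst hi0
        have hz : z ∈ C := by
          rcases hu with ⟨h1, h2⟩ | ⟨h1, h2, h3⟩
          · exact h1
          · rcases h.closed (false, z) h1 h2 with h4 | h4 | ⟨j, h4⟩
            · exact h4
            · simp at h4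
            · exact absurd h4 (h3 j (Fin.zero_le _))
        right
        refine ⟨by simp, hz, ?_⟩
        intro j hj
        have hj6 : j = 6 := by
          ext
          rw [Fin.le_def] at hj
          have := j.isLt
          simp at hj ⊢
          omega
        rw [hj6]
        exact hB'
  exact comp_finite_of_region hRfin (Or.inl ⟨hx, fun j hj => absurd hj (Fin.not_lt_zero j)⟩) hstep

end Pool.Agent.Lib.MP_aefbf4_co
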