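import Mathlib

/-!
# Maker-Breaker percolation games: definitions

All notions are those of the problem file `MP_aefbf4_co`, for a (simple) graph `Λ`.
A play is a pair of sequences `m b : ℕ → Finset (Sym2 V)`; `m n` is the set of edges which Maker
claims in round `n` and `b n` the set of edges which Breaker claims in round `n`
(in every round Maker moves first).
-/

namespace Pool.Agent.Lib.MP_aefbf4_co

variable {V : Type*}

/-- The edges claimed by either player before round `n`, in the game with head start `F`. -/
noncomputable def claimedBefore (F : Finset (Sym2 V)) (m b : ℕ → Finset (Sym2 V)) (n : ℕ) :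
    Finset (Sym2 V) :=
  letI := Classical.decEq (Sym2 V)
  F ∪ (Finset.range n).biUnion (fun i => m i ∪ b i)

/-- Maker's move in round `n` is legal: he claims exactly `p` edges of `Λ`,
none of them claimed before. -/
def LegalMaker (Λ : SimpleGraph V) (p : ℕ) (F : Finset (Sym2 V)) (m b : ℕ → Finset (Sym2 V))
    (n : ℕ) : Prop :=
  (∀ e ∈ m n, e ∈ Λ.edgeSet) ∧ (m n).card = p ∧ ∀ e ∈ m n, e ∉ claimedBefore F m b n

/-- Breaker's move in round `n` is legal: he claims exactly `q` edges of `Λ`,
none of them claimed before, nor by Maker in the same round. -/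
def LegalBreaker (Λ : SimpleGraph V) (q : ℕ) (F : Finset (Sym2 V)) (m b : ℕ → Finset (Sym2 V))
    (n : ℕ) : Prop :=
  (∀ e ∈ b n, e ∈ Λ.edgeSet) ∧ (b n).card = q ∧
    ∀ e ∈ b n, e ∉ claimedBefore F m b n ∧ e ∉ m n

/-- The vertex set of the connected component of `v₀` in the subgraph of `Λ` formed by all the
edges which Breaker has not claimed in the first `n` rounds. -/
def component (Λ : SimpleGraph V) (b : ℕ → Finset (Sym2 V)) (v₀ : V) (n : ℕ) : Set V :=
  {v | (Λ.deleteEdges {e | ∃ i < n, e ∈ b i}).Reachable v₀ v}

/-- Breaker has a winning strategy in the `(p,q)`-percolation game on `(Λ, v₀)` with head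
start `F` (the game without head start is the case `F = ∅`).
A strategy `σ` gives Breaker's move in round `n` as a function of the list `[m 0, …, m n]` of
Maker's moves so far (Breaker's own earlier moves are determined by it).  It is winning if
it makes legal moves as long as Maker has made legal moves, and if in every play in which Maker
makes legal moves and Breaker follows `σ`, at some finite stage the component
of `v₀` in the graph of the edges not claimed by Breaker is finite. -/
def BreakerWins (Λ : SimpleGraph V) (p q : ℕ) (v₀ : V) (F : Finset (Sym2 V)) : Prop :=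
  ∃ σ : List (Finset (Sym2 V)) → Finset (Sym2 V),
    ∀ m b : ℕ → Finset (Sym2 V), (∀ n, b n = σ ((List.range (n + 1)).map m)) →
      (∀ n, (∀ k ≤ n, LegalMaker Λ p F m b k) → LegalBreaker Λ q F m b n) ∧
      ((∀ n, LegalMaker Λ p F m b n) → ∃ n, (component Λ b v₀ n).Finite)

end Pool.Agent.Lib.MP_aefbf4_co
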