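import Pool.Agent.Lib.MP_aefbf4_co.Tree

/-!
Maker survives in the `(6,2)`-game on the tree with the head start consisting of the seven edges
between the root hub and one of its children.
-/

namespace Pool.Agent.Lib.MP_aefbf4_co

open Classical

/-- The subtree below `z` (with the path above `z`) has no edge of Breaker, and it is connected
to the root hub by edges of Maker. -/
def Live (M B : Finset (Sym2 Vtx)) (z : Hub) : Prop :=
  z ≠ [] ∧ (∀ y : Hub, y ≠ [] → y <:+ z → y ≠ z → ∀ i : Fin 7, ed (y, i) ∈ M) ∧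
    ∀ (u : Hub) (i : Fin 7), z <:+ u → ed (u, i) ∉ B

/-- A family of incomparable live hubs. -/
def Good (M B : Finset (Sym2 Vtx)) (Z : Finset Hub) : Prop :=
  (∀ z ∈ Z, Live M B z) ∧ ∀ z ∈ Z, ∀ z' ∈ Z, z <:+ z' → z = z'

theorem Live.mono {M M' B : Finset (Sym2 Vtx)} {z : Hub} (h : Live M B z) (hM : M ⊆ M') :
    Live M' B z := ⟨h.1, fun y h1 h2 h3 i => hM (h.2.1 y h1 h2 h3 i), h.2.2⟩

theorem Good.mono {M M' B : Finset (Sym2 Vtx)} {Z : Finset Hub} (h : Good M B Z)
    (hM : M ⊆ M') : Good M' B Z := ⟨fun z hz => (h.1 z hz).mono hM, h.2⟩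

theorem Good.subset {M B : Finset (Sym2 Vtx)} {Z Z' : Finset Hub} (h : Good M B Z)
    (hZ : Z' ⊆ Z) : Good M B Z' :=
  ⟨fun z hz => h.1 z (hZ hz), fun z hz z' hz' => h.2 z (hZ hz) z' (hZ hz')⟩

/-- After a reply `b` of Breaker, at most `|b|` members of a good family are lost. -/
theorem Good.reply {M B b : Finset (Sym2 Vtx)} {Z : Finset Hub} (h : Good M B Z) :
    ∃ Z' ⊆ Z, Good M (B ∪ b) Z' ∧ Z.card ≤ Z'.card + b.card := by
  refine ⟨Z.filter (fun z => Live M (B ∪ b) z), Finset.filter_subset _ _, ?_, ?_⟩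
  · exact ⟨fun z hz => (Finset.mem_filter.1 hz).2,
      fun z hz z' hz' => h.2 z (Finset.mem_filter.1 hz).1 z' (Finset.mem_filter.1 hz').1⟩
  · have hsplit := Finset.card_filter_add_card_filter_not (s := Z) (fun z => Live M (B ∪ b) z)
    have hrem : (Z.filter (fun z => ¬ Live M (B ∪ b) z)).card ≤ b.card := by
      have hex : ∀ z ∈ Z.filter (fun z => ¬ Live M (B ∪ b) z),
          ∃ u : Vtx, z <:+ u.1 ∧ ed u ∈ b := by
        intro z hz
        obtain ⟨hzZ, hz⟩ := Finset.mem_filter.1 hz
        have hl := h.1 z hzZ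
        by_contra hcon
        push Not at hcon
        apply hz
        refine ⟨hl.1, hl.2.1, ?_⟩
        intro u i hu hmem
        rcases Finset.mem_union.1 hmem with h1 | h1
        · exact hl.2.2 u i hu h1
        · exact hcon (u, i) hu h1
      choose! f hf using hex
      refine Finset.card_le_card_of_injOn (fun z => ed (f z)) ?_ ?_
      · intro z hz
        exact (hf z hz).2
      · intro z hz z' hz' heq
        have hzne : z ≠ [] := (h.1 z (Finset.mem_filter.1 hz).1).1
        have hzne' : z' ≠ [] := (h.1 z' (Finset.mem_filter.1 hz').1).1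
        have hft : f z ≠ top := by
          intro ht
          have := (hf z hz).1
          rw [ht] at this
          simp [top] at this
          exact hzne this
        have hft' : f z' ≠ top := by
          intro ht
          have := (hf z' hz').1
          rw [ht] at this
          simp [top] at this
          exact hzne' this
        have hfe : f z = f z' := ed_inj hft hft' heq
        have h1 := (hf z hz).1
        have h2 := (hf z' hz').1
        rw [← hfe] at h2
        rcases List.suffix_or_suffix_of_suffix h1 h2 with h3 | h3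
        · exact h.2 z (Finset.mem_filter.1 hz).1 z' (Finset.mem_filter.1 hz').1 h3
        · exact (h.2 z' (Finset.mem_filter.1 hz').1 z (Finset.mem_filter.1 hz).1 h3).symm
    omega

/-- Completing the path above `z` replaces `z` by its four children. -/
theorem Good.complete {M B : Finset (Sym2 Vtx)} {Z : Finset Hub} (h : Good M B Z) {z : Hub}
    (hz : z ∈ Z) (hM : ∀ i : Fin 7, ed (z, i) ∈ M) :
    Good M B (Z.erase z ∪ Finset.univ.image (fun c : Fin 4 => c :: z)) ∧
      (Z.erase z ∪ Finset.univ.image (fun c : Fin 4 => c :: z)).card = Z.card + 3 := by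
  have hlz := h.1 z hz
  have hnot : ∀ c : Fin 4, ∀ z' ∈ Z, ¬ (c :: z) <:+ z' := by
    intro c z' hz' hs
    have h1 : z <:+ z' := (List.suffix_cons c z).trans hs
    have h2 := h.2 z hz z' hz' h1
    rw [← h2] at hs
    have := hs.length_le
    simp at this
  have hnot' : ∀ c : Fin 4, ∀ z' ∈ Z.erase z, ¬ z' <:+ (c :: z) := by
    intro c z' hz' hs
    obtain ⟨hne, hz'⟩ := Finset.mem_erase.1 hz'
    rw [List.suffix_cons_iff] at hs
    rcases hs with hs | hs
    · exact hnot c z' hz' (hs ▸ List.suffix_refl _)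
    · exact hne (h.2 z' hz' z hz hs)
  refine ⟨⟨?_, ?_⟩, ?_⟩
  · intro x hx
    rcases Finset.mem_union.1 hx with hx | hx
    · exact h.1 x (Finset.mem_of_mem_erase hx)
    · obtain ⟨c, -, rfl⟩ := Finset.mem_image.1 hx
      refine ⟨by simp, ?_, ?_⟩
      · intro y hy hs hne i
        rw [List.suffix_cons_iff] at hs
        rcases hs with hs | hs
        · exact absurd hs hne
        · by_cases hyz : y = z
          · rw [hyz]; exact hM i
          · exact hlz.2.1 y hy hs hyz i
      · intro u i hu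
        exact hlz.2.2 u i ((List.suffix_cons c z).trans hu)
  · intro x hx x' hx' hs
    rcases Finset.mem_union.1 hx with hx | hx
    · rcases Finset.mem_union.1 hx' with hx' | hx'
      · exact h.2 x (Finset.mem_of_mem_erase hx) x' (Finset.mem_of_mem_erase hx') hs
      · obtain ⟨c, -, rfl⟩ := Finset.mem_image.1 hx'
        exact absurd hs (hnot' c x hx)
    · obtain ⟨c, -, rfl⟩ := Finset.mem_image.1 hx
      rcases Finset.mem_union.1 hx' with hx' | hx'
      · exact absurd hs (hnot c x' (Finset.mem_of_mem_erase hx'))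
      · obtain ⟨c', -, rfl⟩ := Finset.mem_image.1 hx'
        exact hs.eq_of_length (by simp)
  · rw [Finset.card_union_of_disjoint, Finset.card_erase_of_mem hz,
      Finset.card_image_of_injective]
    · have : 0 < Z.card := Finset.card_pos.2 ⟨z, hz⟩
      simp
      omega
    · intro c c' hcc
      simpa using hcc
    · rw [Finset.disjoint_left]
      intro x hx hx'
      obtain ⟨c, -, rfl⟩ := Finset.mem_image.1 hx'
      exact hnot c _ (Finset.mem_of_mem_erase hx) (List.suffix_refl _)

/-- A live hub makes the component of the root hub infinite. -/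
theorem Live.infinite {M B : Finset (Sym2 Vtx)} (hMB : ∀ x ∈ M, x ∉ B) {z : Hub}
    (h : Live M B z) : (comp T ([], 0) B).Infinite := by
  -- all edges above hubs comparable with `z` are not Breaker's
  have hfree : ∀ y : Hub, y ≠ [] → (y <:+ z ∨ z <:+ y) → ∀ i, ed (y, i) ∉ B := by
    intro y hy hor i
    by_cases hzy : z <:+ y
    · exact h.2.2 y i hzy
    · have hyz : y <:+ z := hor.resolve_right hzy
      have hne : y ≠ z := fun h' => hzy (h' ▸ List.suffix_refl _)
      exact hMB _ (h.2.1 y hy hyz hne i)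
  have hadj : ∀ (y : Hub), y ≠ [] → (y <:+ z ∨ z <:+ y) → ∀ i,
      (T.deleteEdges (B : Set (Sym2 Vtx))).Adj (y, i) (par (y, i)) := by
    intro y hy hor i
    rw [SimpleGraph.deleteEdges_adj]
    exact ⟨adj_par _ (ne_top_of_ne_nil hy i), by
      have := hfree y hy hor i
      simpa [ed] using this⟩
  have hup : ∀ (c : Fin 4) (y : Hub), ((c :: y) <:+ z ∨ z <:+ (c :: y)) → ∀ k : ℕ, ∀ i : Fin 7,
      i.val + k = 6 →
      (T.deleteEdges (B : Set (Sym2 Vtx))).Reachable (c :: y, i) (y, 0) := by
    intro c y hor k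
    induction k with
    | zero =>
      intro i hi
      have := hadj (c :: y) (by simp) hor i
      rw [par_cons' c y i (by omega)] at this
      exact this.reachable
    | succ k ih =>
      intro i hi
      have := hadj (c :: y) (by simp) hor i
      rw [par_lt _ i (by omega)] at this
      exact this.reachable.trans (ih _ (by simp; omega))
  have hroot : ∀ y : Hub, (y <:+ z ∨ z <:+ y) →
      (T.deleteEdges (B : Set (Sym2 Vtx))).Reachable ([], 0) (y, 0) := by
    intro y
    induction y with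
    | nil => intro _; exact SimpleGraph.Reachable.refl _
    | cons c y ih =>
      intro hor
      have h1 := hup c y hor 6 0 (by simp)
      refine (ih ?_).trans h1.symm
      rcases hor with h2 | h2
      · exact Or.inl ((List.suffix_cons c y).trans h2)
      · rw [List.suffix_cons_iff] at h2
        rcases h2 with h2 | h2
        · left; rw [h2]; exact List.suffix_cons c y
        · exact Or.inr h2
  have hinj : Function.Injective (fun n : ℕ => ((List.replicate n 0 ++ z, 0) : Vtx)) := by
    intro a b hab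
    have h2 := congrArg (fun p => p.1.length) hab
    simpa using h2
  refine Set.Infinite.mono ?_ (Set.infinite_range_of_injective hinj)
  rintro _ ⟨n, rfl⟩
  exact hroot _ (Or.inr (List.suffix_append _ _))

/-- The three kinds of positions (Maker to move) which Maker maintains. -/
def InvM (M B : Finset (Sym2 Vtx)) : Prop :=
  (∀ x ∈ M, x ∉ B) ∧
    ((∃ Z, Good M B Z ∧ 6 ≤ Z.card) ∨
     (∃ Z, Good M B Z ∧ 4 ≤ Z.card ∧ ∀ z ∈ Z, ed (z, 6) ∈ M) ∨
     (∃ Z, Good M B Z ∧ 5 ≤ Z.card ∧ ∃ z ∈ Z, ed (z, 6) ∈ M))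

/-- The head start. -/
noncomputable def F₀ : Finset (Sym2 Vtx) := Finset.univ.image (fun i : Fin 7 => ed ([0], i))

theorem disjoint_step {M B m b : Finset (Sym2 Vtx)} (hMB : ∀ x ∈ M, x ∉ B)
    (hm : Legal T 6 (M ∪ B) m) (hb : Legal T 2 (M ∪ B ∪ m) b) :
    ∀ x ∈ M ∪ m, x ∉ B ∪ b := by
  intro x hx hx'
  rcases Finset.mem_union.1 hx with h1 | h1 <;> rcases Finset.mem_union.1 hx' with h2 | h2
  · exact hMB x h1 h2
  · exact hb.2.2 x h2 (Finset.mem_union_left _ (Finset.mem_union_left _ h1))
  · exact hm.2.2 x h1 (Finset.mem_union_right _ h2)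
  · exact hb.2.2 x h2 (Finset.mem_union_right _ h1)

/-- Maker completes a raised path. -/
theorem complete_move {M B : Finset (Sym2 Vtx)} {Z : Finset Hub} (h : Good M B Z) {z : Hub}
    (hz : z ∈ Z) (hr : ed (z, 6) ∈ M) :
    ∃ m, Legal T 6 (M ∪ B) m ∧ ∀ i : Fin 7, ed (z, i) ∈ M ∪ m := by
  have hlz := h.1 z hz
  let S : Finset (Sym2 Vtx) := (Finset.univ.image (fun i : Fin 7 => ed (z, i))) \ M
  have hcard : S.card ≤ 6 := by
    have h1 : S ⊆ (Finset.univ.image (fun i : Fin 7 => ed (z, i))).erase (ed (z, 6)) := by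
      intro x hx
      obtain ⟨hx1, hx2⟩ := Finset.mem_sdiff.1 hx
      exact Finset.mem_erase.2 ⟨fun h' => hx2 (h' ▸ hr), hx1⟩
    have h2 := Finset.card_le_card h1
    rw [Finset.card_erase_of_mem (Finset.mem_image_of_mem _ (Finset.mem_univ _))] at h2
    have h3 : (Finset.univ.image (fun i : Fin 7 => ed (z, i))).card ≤ 7 :=
      Finset.card_image_le.trans (by simp)
    omega
  obtain ⟨m, hm, hSm⟩ := exists_legal_superset T T_edgeSet_infinite 6 (M ∪ B) S
    (by
      intro x hx
      obtain ⟨hx1, -⟩ := Finset.mem_sdiff.1 hx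
      obtain ⟨i, -, rfl⟩ := Finset.mem_image.1 hx1
      exact ed_mem _ (ne_top_of_ne_nil hlz.1 i))
    (by
      intro x hx hc
      obtain ⟨hx1, hx2⟩ := Finset.mem_sdiff.1 hx
      obtain ⟨i, -, rfl⟩ := Finset.mem_image.1 hx1
      rcases Finset.mem_union.1 hc with h1 | h1
      · exact hx2 h1
      · exact hlz.2.2 z i (List.suffix_refl _) h1) hcard
  refine ⟨m, hm, fun i => ?_⟩
  by_cases hM : ed (z, i) ∈ M
  · exact Finset.mem_union_left _ hM
  · exact Finset.mem_union_right _ (hSm (Finset.mem_sdiff.2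
      ⟨Finset.mem_image_of_mem _ (Finset.mem_univ _), hM⟩))

/-- Maker raises six paths. -/
theorem raise_move {M B : Finset (Sym2 Vtx)} {Z : Finset Hub} (h : Good M B Z)
    (hcard : Z.card ≤ 6) :
    ∃ m, Legal T 6 (M ∪ B) m ∧ ∀ z ∈ Z, ed (z, 6) ∈ M ∪ m := by
  let S : Finset (Sym2 Vtx) := (Z.image (fun z => ed (z, 6))) \ M
  have hcard' : S.card ≤ 6 :=
    (Finset.card_le_card Finset.sdiff_subset).trans (Finset.card_image_le.trans hcard)
  obtain ⟨m, hm, hSm⟩ := exists_legal_superset T T_edgeSet_infinite 6 (M ∪ B) S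
    (by
      intro x hx
      obtain ⟨hx1, -⟩ := Finset.mem_sdiff.1 hx
      obtain ⟨z, hz, rfl⟩ := Finset.mem_image.1 hx1
      exact ed_mem _ (ne_top_of_ne_nil (h.1 z hz).1 6))
    (by
      intro x hx hc
      obtain ⟨hx1, hx2⟩ := Finset.mem_sdiff.1 hx
      obtain ⟨z, hz, rfl⟩ := Finset.mem_image.1 hx1
      rcases Finset.mem_union.1 hc with h1 | h1
      · exact hx2 h1
      · exact (h.1 z hz).2.2 z 6 (List.suffix_refl _) h1) hcard'
  refine ⟨m, hm, fun z hz => ?_⟩
  by_cases hM : ed (z, 6) ∈ M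
  · exact Finset.mem_union_left _ hM
  · exact Finset.mem_union_right _ (hSm (Finset.mem_sdiff.2
      ⟨Finset.mem_image_of_mem _ hz, hM⟩))

theorem InvM.step {M B : Finset (Sym2 Vtx)} (h : InvM M B) :
    ∃ m, Legal T 6 (M ∪ B) m ∧ ∀ b, Legal T 2 (M ∪ B ∪ m) b → InvM (M ∪ m) (B ∪ b) := by
  obtain ⟨hMB, ⟨Z, hG, hc⟩ | ⟨Z, hG, hc, hr⟩ | ⟨Z, hG, hc, z, hz, hr⟩⟩ := h
  · -- phase A: raise six
    obtain ⟨Z6, hsub, hc6⟩ := Finset.exists_subset_card_eq hc
    obtain ⟨m, hm, hmr⟩ := raise_move (hG.subset hsub) (by omega)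
    refine ⟨m, hm, fun b hb => ⟨disjoint_step hMB hm hb, ?_⟩⟩
    obtain ⟨Z', hZ', hG', hc'⟩ := ((hG.subset hsub).mono
      (Finset.subset_union_left (s₂ := m))).reply (b := b)
    rw [hb.2.1] at hc'
    exact Or.inr (Or.inl ⟨Z', hG', by omega, fun z hz => hmr z (hZ' hz)⟩)
  · -- phase B: complete one
    have hne : Z.Nonempty := Finset.card_pos.1 (by omega)
    obtain ⟨z, hz⟩ := hne
    obtain ⟨m, hm, hall⟩ := complete_move hG hz (hr z hz)
    refine ⟨m, hm, fun b hb => ⟨disjoint_step hMB hm hb, ?_⟩⟩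
    obtain ⟨hG2, hc2⟩ := (hG.mono (Finset.subset_union_left (s₂ := m))).complete hz hall
    obtain ⟨Z', hZ', hG', hc'⟩ := hG2.reply (b := b)
    rw [hb.2.1] at hc'
    refine Or.inr (Or.inr ⟨Z', hG', by omega, ?_⟩)
    -- at least one raised hub survives
    by_contra hcon
    push Not at hcon
    have hsub : Z' ⊆ Finset.univ.image (fun c : Fin 4 => c :: z) := by
      intro x hx
      rcases Finset.mem_union.1 (hZ' hx) with h1 | h1
      · exact absurd (Finset.mem_union_left _ (hr x (Finset.mem_of_mem_erase h1))) (hcon x hx)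
      · exact h1
    have h4 := Finset.card_le_card hsub
    have h5 : (Finset.univ.image (fun c : Fin 4 => c :: z)).card ≤ 4 :=
      Finset.card_image_le.trans (by simp)
    omega
  · -- phase C: complete one
    obtain ⟨m, hm, hall⟩ := complete_move hG hz hr
    refine ⟨m, hm, fun b hb => ⟨disjoint_step hMB hm hb, ?_⟩⟩
    obtain ⟨hG2, hc2⟩ := (hG.mono (Finset.subset_union_left (s₂ := m))).complete hz hall
    obtain ⟨Z', hZ', hG', hc'⟩ := hG2.reply (b := b)
    rw [hb.2.1] at hc'
    exact Or.inl ⟨Z', hG', by omega⟩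

theorem InvM.infinite {M B : Finset (Sym2 Vtx)} (h : InvM M B) :
    (comp T ([], 0) B).Infinite := by
  obtain ⟨hMB, ⟨Z, hG, hc⟩ | ⟨Z, hG, hc, -⟩ | ⟨Z, hG, hc, -⟩⟩ := h
  all_goals
    obtain ⟨z, hz⟩ : Z.Nonempty := Finset.card_pos.1 (by omega)
    exact (hG.1 z hz).infinite hMB

theorem InvM_start : InvM F₀ ∅ := by
  refine ⟨by simp, Or.inl ?_⟩
  -- start from the family of the four children of the root hub and complete `[0]`
  have hG : Good F₀ ∅ ({[0], [1], [2], [3]} : Finset Hub) := by
    refine ⟨?_, ?_⟩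
    · intro z hz
      have hz' : z = [0] ∨ z = [1] ∨ z = [2] ∨ z = [3] := by simpa using hz
      have hlen : z.length = 1 := by rcases hz' with h | h | h | h <;> simp [h]
      refine ⟨by intro h; rw [h] at hlen; simp at hlen, ?_, by simp⟩
      intro y hy hs hne i
      exfalso
      have h1 := hs.length_le
      have h2 : y.length ≠ 0 := by simpa using hy
      exact hne (hs.eq_of_length (by omega))
    · intro z hz z' hz' hs
      have h1 : z = [0] ∨ z = [1] ∨ z = [2] ∨ z = [3] := by simpa using hz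
      have h2 : z' = [0] ∨ z' = [1] ∨ z' = [2] ∨ z' = [3] := by simpa using hz'
      have e1 : z.length = 1 := by rcases h1 with h | h | h | h <;> simp [h]
      have e2 : z'.length = 1 := by rcases h2 with h | h | h | h <;> simp [h]
      exact hs.eq_of_length (by omega)
  obtain ⟨hG2, hc2⟩ := hG.complete (z := [0]) (by simp)
    (fun i => Finset.mem_image_of_mem _ (Finset.mem_univ i))
  exact ⟨_, hG2, by rw [hc2]; simp⟩

theorem maker_side : ¬ BreakerWins T 6 2 ([], 0) F₀ :=
  not_breakerWins T 6 2 ([], 0) F₀ InvM InvM_start (fun _ _ h => h.infinite)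
    (fun _ _ h => h.step)

end Pool.Agent.Lib.MP_aefbf4_co
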