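import Pool.Agent.Lib.MP_aefbf4_co.Stages

/-!
Breaker wins the `(6,2)`-game on the tree from every root.
-/

namespace Pool.Agent.Lib.MP_aefbf4_co

open Classical

/-- `u` and `v` are connected by edges of `M`, in the sense that they remain connected whatever
edges outside `M` are deleted. -/
def Conn (M : Finset (Sym2 Vtx)) (u v : Vtx) : Prop :=
  ∀ B : Finset (Sym2 Vtx), (∀ x ∈ M, x ∉ B) →
    (T.deleteEdges (B : Set (Sym2 Vtx))).Reachable u v

theorem Conn.mono {M M' : Finset (Sym2 Vtx)} {u v : Vtx} (h : Conn M u v) (hM : M ⊆ M') :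
    Conn M' u v := fun B hB => h B (fun x hx => hB x (hM hx))

theorem transfer {u v : Vtx} (N : ℕ) : ∀ {M B : Finset (Sym2 Vtx)}, (∀ x ∈ M, x ∉ B) →
    Conn M u v → BWn T 6 2 u N M B → BWn T 6 2 v N M B := by
  induction N with
  | zero =>
    intro M B hMB hc h
    refine Set.Finite.subset (h : (comp T u B).Finite) ?_
    intro w hw
    exact (hc B hMB).trans hw
  | succ N ih =>
    intro M B hMB hc h m hm
    obtain ⟨b, hb, hW⟩ := h m hm
    refine ⟨b, hb, ih ?_ (hc.mono Finset.subset_union_left) hW⟩
    intro x hx hx'
    rcases Finset.mem_union.1 hx with h1 | h1 <;> rcases Finset.mem_union.1 hx' with h2 | h2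
    · exact hMB x h1 h2
    · exact hb.2.2 x h2 (Finset.mem_union_left _ (Finset.mem_union_left _ h1))
    · exact hm.2.2 x h1 (Finset.mem_union_right _ h2)
    · exact hb.2.2 x h2 (Finset.mem_union_right _ h1)

theorem adj_del {B : Finset (Sym2 Vtx)} {u : Vtx} (hu : u ≠ top) (h : ed u ∉ B) :
    (T.deleteEdges (B : Set (Sym2 Vtx))).Adj u (par u) := by
  rw [SimpleGraph.deleteEdges_adj]
  exact ⟨adj_par u hu, by simpa [ed] using h⟩

/-- If Maker has the lower part of the path, `(z, i)` is connected to the hub `z`. -/
theorem conn_down {M : Finset (Sym2 Vtx)} {z : Hub} {i : Fin 7}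
    (h : ∀ j < i, ed (z, j) ∈ M) : Conn M (z, 0) (z, i) := by
  intro B hB
  have key : ∀ k : ℕ, ∀ hk : k < 7, k ≤ i.val →
      (T.deleteEdges (B : Set (Sym2 Vtx))).Reachable (z, 0) (z, ⟨k, hk⟩) := by
    intro k
    induction k with
    | zero => intro _ _; exact SimpleGraph.Reachable.refl _
    | succ k ih =>
      intro hk hki
      refine (ih (by omega) (by omega)).trans ?_
      have hi := i.isLt
      have h1 : ed (z, (⟨k, by omega⟩ : Fin 7)) ∈ M :=
        h ⟨k, by omega⟩ (by rw [Fin.lt_def]; simp; omega)
      have h2 := adj_del (ne_top_of_lt z ⟨k, by omega⟩ (by simp; omega)) (hB _ h1)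
      rw [par_lt z _ (by simp; omega)] at h2
      exact h2.reachable
  exact key i.val i.isLt le_rfl

/-- If Maker has the upper part of the path, `(z, i)` is connected to the parent hub. -/
theorem conn_up {M : Finset (Sym2 Vtx)} {c : Fin 4} {y : Hub} {i : Fin 7}
    (h : ∀ j, i ≤ j → ed (c :: y, j) ∈ M) : Conn M (y, 0) (c :: y, i) := by
  intro B hB
  have key : ∀ k : ℕ, ∀ j : Fin 7, i ≤ j → j.val + k = 6 →
      (T.deleteEdges (B : Set (Sym2 Vtx))).Reachable (y, 0) (c :: y, j) := by
    intro k
    induction k with
    | zero =>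
      intro j hij hj
      have h2 := adj_del (ne_top_of_ne_nil (by simp) j) (hB _ (h j hij))
      rw [par_cons' c y j (by omega)] at h2
      exact h2.reachable.symm
    | succ k ih =>
      intro j hij hj
      have h2 := adj_del (ne_top_of_ne_nil (by simp) j) (hB _ (h j hij))
      rw [par_lt _ j (by omega)] at h2
      refine (ih ⟨j.val + 1, by omega⟩ ?_ (by simp; omega)).trans h2.reachable.symm
      rw [Fin.le_def] at hij ⊢
      simp; omega
  exact key (6 - i.val) i le_rfl (by have := i.isLt; omega)

/-- A segment of a path which is cut on both sides. -/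
theorem segment_finite {B : Finset (Sym2 Vtx)} {z : Hub} {i j : Fin 7} (hj : j < i)
    (h1 : ed (z, j) ∈ B) (h2 : z = [] ∨ ∃ j', i ≤ j' ∧ ed (z, j') ∈ B) :
    (comp T (z, i) B).Finite := by
  let R : Set Vtx := {v | v.1 = z ∧ j < v.2 ∧ (z = [] ∨ ∃ j', v.2 ≤ j' ∧ ed (z, j') ∈ B)}
  refine comp_finite_of_region (R := R) ?_ ⟨rfl, hj, h2⟩ ?_
  · refine Set.Finite.subset (Finset.finite_toSet (({z} : Finset Hub) ×ˢ
      (Finset.univ : Finset (Fin 7)))) ?_
    rintro ⟨y, k⟩ ⟨h, -⟩
    simp only [Finset.coe_product, Set.mem_prod, Finset.mem_coe, Finset.mem_singleton,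
      Finset.mem_univ, and_true]
    exact h
  · rintro ⟨y, k⟩ ⟨rfl, hk, hor⟩ v hadj hB
    simp only at hk hor
    rw [adj_iff] at hadj
    rcases hadj with ⟨hnt, hp⟩ | ⟨hnt, hp⟩
    · have hB' : ed (y, k) ∉ B := by rw [ed, hp]; exact hB
      by_cases hk6 : k.val < 6
      · rw [par_lt y k hk6] at hp
        subst hp
        refine ⟨rfl, ?_, ?_⟩
        · rw [Fin.lt_def] at hk ⊢; simp only; omega
        · rcases hor with hor | ⟨j', hj', hj''⟩
          · exact Or.inl hor
          · right
            refine ⟨j', ?_, hj''⟩
            rw [Fin.le_def] at hj' ⊢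
            simp only
            have : k.val ≠ j'.val := by
              intro h
              have : k = j' := Fin.ext h
              rw [this] at hB'
              exact hB' hj''
            omega
      · have hk6' : k = 6 := by ext; simp; omega
        subst hk6'
        rcases hor with hor | ⟨j', hj', hj''⟩
        · exact absurd (by rw [hor]; rfl) hnt
        · exfalso
          have : j' = 6 := by
            ext
            rw [Fin.le_def] at hj'
            have := j'.isLt
            simp at hj' ⊢
            omega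
          rw [this] at hj''
          exact hB' hj''
    · have hB' : ed v ∉ B := by rw [ed, hp, Sym2.eq_swap]; exact hB
      rcases child_cases hnt hp with ⟨l, hl, rfl⟩ | ⟨hk0, c, rfl⟩
      · refine ⟨rfl, ?_, ?_⟩
        · simp only
          have : l.val ≠ j.val := by
            intro h
            have : l = j := Fin.ext h
            rw [this] at hB'
            exact hB' h1
          rw [Fin.lt_def] at hk ⊢
          omega
        · rcases hor with hor | ⟨j', hj', hj''⟩
          · exact Or.inl hor
          · right
            refine ⟨j', ?_, hj''⟩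
            rw [Fin.le_def] at hj' ⊢
            simp only
            omega
      · exfalso
        rw [hk0] at hk
        exact Fin.not_lt_zero _ hk

/-- Breaker's reply to the first move of Maker, from any root. -/
theorem reply_any (v : Vtx) (m : Finset (Sym2 Vtx)) (hm : Legal T 6 ∅ m) :
    ∃ b, Legal T 2 m b ∧ BWn T 6 2 v 6 m b := by
  have hub : ∀ (x : Hub), Conn m (x, 0) v → ∃ b, Legal T 2 m b ∧ BWn T 6 2 v 6 m b := by
    intro x hc
    obtain ⟨b, hb, hW⟩ := reply_hub x m hm.2.1
    simp only [Finset.union_empty, Finset.empty_union] at hb hW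
    exact ⟨b, hb, transfer 6 (fun e he hc => hb.2.2 e hc he) hc hW⟩
  obtain ⟨z, i⟩ := v
  by_cases hA : ∀ j < i, ed (z, j) ∈ m
  · exact hub z (conn_down hA)
  · push Not at hA
    obtain ⟨j, hji, hj⟩ := hA
    by_cases hz : z = []
    · obtain ⟨r, hr, hSr⟩ := exists_legal_superset T T_edgeSet_infinite 2 m {ed (z, j)}
        (by
          intro e he
          rw [Finset.mem_singleton.1 he]
          refine ed_mem _ (ne_top_of_lt z j ?_)
          have := i.isLt
          rw [Fin.lt_def] at hji
          omega)
        (by intro e he; rw [Finset.mem_singleton.1 he]; exact hj) (by simp)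
      exact ⟨r, hr, BWn_of_finite 6 (segment_finite hji
        (hSr (Finset.mem_singleton_self _)) (Or.inl hz))⟩
    · by_cases hB : ∀ j, i ≤ j → ed (z, j) ∈ m
      · cases z with
        | nil => exact absurd rfl hz
        | cons c y => exact hub y (conn_up hB)
      · push Not at hB
        obtain ⟨j', hij', hj'⟩ := hB
        obtain ⟨r, hr, hSr⟩ := exists_legal_superset T T_edgeSet_infinite 2 m
          {ed (z, j), ed (z, j')}
          (by
            intro e he
            rcases Finset.mem_insert.1 he with h | h
            · rw [h]; exact ed_mem _ (ne_top_of_ne_nil hz j)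
            · rw [Finset.mem_singleton.1 h]; exact ed_mem _ (ne_top_of_ne_nil hz j'))
          (by
            intro e he
            rcases Finset.mem_insert.1 he with h | h
            · rw [h]; exact hj
            · rw [Finset.mem_singleton.1 h]; exact hj')
          (Finset.card_insert_le _ _)
        exact ⟨r, hr, BWn_of_finite 6 (segment_finite hji
          (hSr (Finset.mem_insert_self _ _))
          (Or.inr ⟨j', hij', hSr (Finset.mem_insert_of_mem (Finset.mem_singleton_self _))⟩))⟩

theorem breaker_side (v : Vtx) : BreakerWins T 6 2 v ∅ := by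
  refine breakerWins_of_BWn T T_edgeSet_infinite 6 2 v ∅ 7 ?_
  intro m hm
  simp only [Finset.union_empty, Finset.empty_union] at hm ⊢
  exact reply_any v m hm

end Pool.Agent.Lib.MP_aefbf4_co
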