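import Pool.Agent.Lib.MP_aefbf4_co.Breaker

/-!
The course of the `(6,2)`-game: Breaker always cuts the two open paths behind which Maker has
claimed the most edges.
-/

namespace Pool.Agent.Lib.MP_aefbf4_co

open Classical

theorem comp_mono {B B' : Finset (Sym2 Vtx)} (h : B ⊆ B') (v₀ : Vtx) :
    comp T v₀ B' ⊆ comp T v₀ B := by
  intro v hv
  refine SimpleGraph.Reachable.mono ?_ hv
  intro a b hab
  rw [SimpleGraph.deleteEdges_adj] at hab ⊢
  exact ⟨hab.1, fun hc => hab.2 (by exact_mod_cast h (by exact_mod_cast hc))⟩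

theorem BWn_of_finite {v₀ : Vtx} (N : ℕ) : ∀ {M B : Finset (Sym2 Vtx)},
    (comp T v₀ B).Finite → BWn T 6 2 v₀ N M B := by
  induction N with
  | zero => intro M B h; exact h
  | succ N ih =>
    intro M B h m _
    obtain ⟨b, hb⟩ := exists_legal T T_edgeSet_infinite 2 (M ∪ B ∪ m)
    exact ⟨b, hb, ih (h.subset (comp_mono Finset.subset_union_left v₀))⟩

theorem BWn_succ {v₀ : Vtx} (N : ℕ) : ∀ {M B : Finset (Sym2 Vtx)},
    BWn T 6 2 v₀ N M B → BWn T 6 2 v₀ (N + 1) M B := by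
  induction N with
  | zero => intro M B h; exact BWn_of_finite 1 h
  | succ N ih =>
    intro M B h m hm
    obtain ⟨b, hb, hb'⟩ := h m hm
    exact ⟨b, hb, ih hb'⟩

theorem BWn_mono {v₀ : Vtx} {N N' : ℕ} (hN : N ≤ N') {M B : Finset (Sym2 Vtx)}
    (h : BWn T 6 2 v₀ N M B) : BWn T 6 2 v₀ N' M B := by
  induction hN with
  | refl => exact h
  | step _ ih => exact BWn_succ _ ih

/-- Breaker's selection: the two members of largest weight. -/
theorem top_two {α : Type*} [DecidableEq α] (O : Finset α) (w : α → ℕ) :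
    ∃ K ⊆ O, K.card ≤ 2 ∧ (O \ K).card ≤ O.card - 2 ∧
      ∃ t, ∑ b ∈ O \ K, w b ≤ (O \ K).card * t ∧
        (2 * t + ∑ b ∈ O \ K, w b ≤ ∑ b ∈ O, w b ∨ O \ K = ∅) := by
  by_cases h2 : O.card < 2
  · exact ⟨O, Finset.Subset.refl _, by omega, by simp, 0, by simp, Or.inr (by simp)⟩
  · obtain ⟨a, ha, hamax⟩ := Finset.exists_max_image O w (Finset.card_pos.1 (by omega))
    have hcard : (O.erase a).card = O.card - 1 := Finset.card_erase_of_mem ha
    obtain ⟨b, hb, hbmax⟩ := Finset.exists_max_image (O.erase a) w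
      (Finset.card_pos.1 (by omega))
    obtain ⟨hba, hbO⟩ := Finset.mem_erase.1 hb
    have hK : ({a, b} : Finset α) ⊆ O := by
      intro x hx
      rcases Finset.mem_insert.1 hx with h | h
      · rw [h]; exact ha
      · rw [Finset.mem_singleton.1 h]; exact hbO
    have hKc : ({a, b} : Finset α).card = 2 := Finset.card_pair (Ne.symm hba)
    refine ⟨{a, b}, hK, by omega, ?_, w b, ?_, Or.inl ?_⟩
    · rw [Finset.card_sdiff_of_subset hK, hKc]
    · refine Finset.sum_le_card_nsmul _ _ _ ?_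
      intro x hx
      obtain ⟨hxO, hxK⟩ := Finset.mem_sdiff.1 hx
      apply hbmax x
      refine Finset.mem_erase.2 ⟨?_, hxO⟩
      intro h
      exact hxK (by rw [h]; exact Finset.mem_insert_self _ _)
    · have h1 := Finset.sum_sdiff (f := w) hK
      rw [Finset.sum_pair (Ne.symm hba)] at h1
      have h3 := hamax b hbO
      omega

/-- In a family whose weights add up to less than `7` no path is completed. -/
theorem not_complete {M : Finset (Sym2 Vtx)} {O : Finset Br} (hv : ∀ b ∈ O, b.2 ≠ [])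
    (hs : ∑ b ∈ O, wt M b < 7) {b : Br} (hb : b ∈ O) : ¬ pathE b.2 ⊆ M := by
  intro h
  have h1 := sum_succB M (hv b hb) h
  have h2 : wt M b ≤ ∑ b ∈ O, wt M b := Finset.single_le_sum (fun _ _ => Nat.zero_le _) hb
  omega

/-- Position in which Maker has moved and Breaker is to reply. -/
def AS (x : Hub) (N : ℕ) (M B : Finset (Sym2 Vtx)) : Prop :=
  ∃ b, Legal T 2 (M ∪ B) b ∧ BWn T 6 2 (x, 0) N M (B ∪ b)

/-- The rule for Maker's move. -/
theorem BWn_of_AS {x : Hub} {N n s : ℕ}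
    (h : ∀ M B C O, x ∈ C → Cfg B C O → O.card ≤ n → ∑ b ∈ O, wt M b ≤ s + 6 → AS x N M B)
    {M B : Finset (Sym2 Vtx)} {C : Finset Hub} {O : Finset Br} (hx : x ∈ C) (hC : Cfg B C O)
    (hn : O.card ≤ n) (hs : ∑ b ∈ O, wt M b ≤ s) : BWn T 6 2 (x, 0) (N + 1) M B := by
  intro m hm
  have hsum : ∑ b ∈ O, wt (M ∪ m) b ≤ s + 6 := by
    have h1 : ∑ b ∈ O, wt (M ∪ m) b ≤ ∑ b ∈ O, (wt M b + wt m b) :=
      Finset.sum_le_sum (fun b _ => wt_union M m b)
    rw [Finset.sum_add_distrib] at h1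
    have h2 := sum_wt_le m O hC.disj
    rw [hm.2.1] at h2
    omega
  obtain ⟨b, hb, hW⟩ := h (M ∪ m) B C O hx hC hn hsum
  refine ⟨b, ?_, hW⟩
  have : M ∪ B ∪ m = M ∪ m ∪ B := by
    ext e; simp only [Finset.mem_union]; tauto
  rw [this]
  exact hb

/-- Few open paths, none complete: Breaker wins at once. -/
theorem AS_win {x : Hub} {N : ℕ} {M B : Finset (Sym2 Vtx)} {C : Finset Hub} {O : Finset Br}
    (hx : x ∈ C) (hC : Cfg B C O) (hn : O.card ≤ 2) (hinc : ∀ b ∈ O, ¬ pathE b.2 ⊆ M) :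
    AS x N M B := by
  obtain ⟨r, hr, hC'⟩ := hC.kill (Finset.Subset.refl O) hn hinc
  refine ⟨r, hr, BWn_of_finite N ?_⟩
  rw [Finset.sdiff_self] at hC'
  exact hC'.finite hx

/-- No path complete: Breaker cuts the two paths of largest weight. -/
theorem AS_cut {x : Hub} {N n' s' n s : ℕ}
    (hnext : ∀ M B C O, x ∈ C → Cfg B C O → O.card ≤ n' → ∑ b ∈ O, wt M b ≤ s' →
      BWn T 6 2 (x, 0) N M B)
    {M B : Finset (Sym2 Vtx)} {C : Finset Hub} {O : Finset Br}
    (hx : x ∈ C) (hC : Cfg B C O) (hn : O.card ≤ n) (hs : ∑ b ∈ O, wt M b ≤ s)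
    (hinc : ∀ b ∈ O, ¬ pathE b.2 ⊆ M) (hnn : n - 2 ≤ n')
    (hnum : ∀ t S, S ≤ (n - 2) * t → 2 * t + S ≤ s → S ≤ s') : AS x N M B := by
  obtain ⟨K, hK, hKc, hKO, t, ht, hts⟩ := top_two O (wt M)
  obtain ⟨r, hr, hC'⟩ := hC.kill hK hKc (fun b hb => hinc b (hK hb))
  refine ⟨r, hr, hnext M (B ∪ r) C (O \ K) hx hC' (by omega) ?_⟩
  rcases hts with hts | hts
  · refine hnum t _ (ht.trans (Nat.mul_le_mul_right t (by omega))) (by omega)
  · rw [hts]; simp

theorem stage20 {x : Hub} : ∀ M B C O, x ∈ C → Cfg B C O → O.card ≤ 2 →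
    ∑ b ∈ O, wt M b ≤ 0 → BWn T 6 2 (x, 0) 1 M B := by
  intro M B C O hx hC hn hs
  exact BWn_of_AS (n := 2) (s := 0) (fun M B C O hx hC hn hs =>
    AS_win hx hC hn (fun b hb => not_complete hC.valid (by omega) hb)) hx hC hn hs

/-- General step for the positions with at most `n ≤ 3` open paths of total weight `≤ 3`:
if Maker completes a path, Breaker cuts all the others in which Maker has an edge. -/
theorem stepT {x : Hub} {N n : ℕ} (hn3 : n ≤ 3)
    (hnext : ∀ M B C O, x ∈ C → Cfg B C O → O.card ≤ n + 1 → ∑ b ∈ O, wt M b ≤ 0 →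
      BWn T 6 2 (x, 0) N M B)
    (hnext' : ∀ M B C O, x ∈ C → Cfg B C O → O.card ≤ n - 2 → ∑ b ∈ O, wt M b ≤ 3 →
      BWn T 6 2 (x, 0) N M B) :
    ∀ M B C O, x ∈ C → Cfg B C O → O.card ≤ n → ∑ b ∈ O, wt M b ≤ 3 →
      BWn T 6 2 (x, 0) (N + 1) M B := by
  intro M B C O hx hC hn hs
  refine BWn_of_AS (n := n) (s := 3) ?_ hx hC hn hs
  clear hx hC hn hs M B C O
  intro M B C O hx hC hn hs
  by_cases hcomp : ∃ b ∈ O, pathE b.2 ⊆ M
  · obtain ⟨b, hb, hbM⟩ := hcomp
    have hC' := hC.complete hb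
    have hv := hC.valid b hb
    have hcard : (O.erase b ∪ succB b).card ≤ n + 3 := by
      refine (Finset.card_union_le _ _).trans ?_
      have h1 := Finset.card_erase_of_mem hb
      have h2 := card_succB hv
      have h3 : 0 < O.card := Finset.card_pos.2 ⟨b, hb⟩
      omega
    have hsum : ∑ b' ∈ O.erase b ∪ succB b, wt M b' ≤ 2 := by
      have h1 : ∑ b' ∈ O.erase b ∪ succB b, wt M b' ≤
          ∑ b' ∈ O.erase b, wt M b' + ∑ b' ∈ succB b, wt M b' := by
        have := Finset.sum_union_inter (s₁ := O.erase b) (s₂ := succB b) (f := wt M)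
        omega
      have h2 := sum_succB M hv hbM
      have h3 := Finset.add_sum_erase O (wt M) hb
      omega
    refine AS_cut (n := n + 3) (s := 2) hnext (Finset.mem_insert_of_mem hx) hC' hcard hsum
      (fun b' hb' => not_complete hC'.valid (by omega) hb') (by omega) ?_
    intro t S h1 h2
    have : S ≤ 4 * t := h1.trans (Nat.mul_le_mul_right t (by omega))
    omega
  · push Not at hcomp
    by_cases hn2 : n ≤ 2
    · exact AS_win hx hC (by omega) hcomp
    · refine AS_cut (n := n) (s := 9) hnext' hx hC hn hs hcomp (by omega) ?_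
      intro t S h1 h2
      have : S ≤ 1 * t := h1.trans (Nat.mul_le_mul_right t (by omega))
      omega

/-- General step for the positions with at most `n ≤ 5` open paths of weight `0`. -/
theorem stepU {x : Hub} {N n : ℕ} (hn5 : n ≤ 5)
    (hnext : ∀ M B C O, x ∈ C → Cfg B C O → O.card ≤ n - 2 → ∑ b ∈ O, wt M b ≤ 3 →
      BWn T 6 2 (x, 0) N M B) :
    ∀ M B C O, x ∈ C → Cfg B C O → O.card ≤ n → ∑ b ∈ O, wt M b ≤ 0 →
      BWn T 6 2 (x, 0) (N + 1) M B := by
  intro M B C O hx hC hn hs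
  refine BWn_of_AS (n := n) (s := 0) ?_ hx hC hn hs
  clear hx hC hn hs M B C O
  intro M B C O hx hC hn hs
  refine AS_cut (n := n) (s := 6) hnext hx hC hn (by omega)
    (fun b hb => not_complete hC.valid (by omega) hb) le_rfl ?_
  intro t S h1 h2
  have : S ≤ 3 * t := h1.trans (Nat.mul_le_mul_right t (by omega))
  omega

theorem stage00 {x : Hub} : ∀ M B C O, x ∈ C → Cfg B C O → O.card ≤ 0 →
    ∑ b ∈ O, wt M b ≤ 3 → BWn T 6 2 (x, 0) 0 M B := by
  intro M B C O hx hC hn _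
  have : O = ∅ := Finset.card_eq_zero.1 (by omega)
  rw [this] at hC
  exact hC.finite hx

/-- one open path of weight at most `3` -/
theorem stage13 {x : Hub} : ∀ M B C O, x ∈ C → Cfg B C O → O.card ≤ 1 →
    ∑ b ∈ O, wt M b ≤ 3 → BWn T 6 2 (x, 0) 2 M B :=
  stepT (n := 1) (by omega) stage20
    (fun M B C O hx hC hn hs => BWn_mono (Nat.zero_le 1) (stage00 M B C O hx hC hn hs))

/-- three open paths of weight `0` -/
theorem stage30 {x : Hub} : ∀ M B C O, x ∈ C → Cfg B C O → O.card ≤ 3 →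
    ∑ b ∈ O, wt M b ≤ 0 → BWn T 6 2 (x, 0) 3 M B :=
  stepU (n := 3) (by omega) stage13

/-- two open paths of weight at most `3` -/
theorem stage23 {x : Hub} : ∀ M B C O, x ∈ C → Cfg B C O → O.card ≤ 2 →
    ∑ b ∈ O, wt M b ≤ 3 → BWn T 6 2 (x, 0) 4 M B :=
  stepT (n := 2) (by omega) stage30
    (fun M B C O hx hC hn hs => BWn_mono (Nat.zero_le 3) (stage00 M B C O hx hC hn hs))

/-- four open paths of weight `0` -/
theorem stage40 {x : Hub} : ∀ M B C O, x ∈ C → Cfg B C O → O.card ≤ 4 →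
    ∑ b ∈ O, wt M b ≤ 0 → BWn T 6 2 (x, 0) 5 M B :=
  stepU (n := 4) (by omega) stage23

/-- three open paths of weight at most `3` -/
theorem stage33 {x : Hub} : ∀ M B C O, x ∈ C → Cfg B C O → O.card ≤ 3 →
    ∑ b ∈ O, wt M b ≤ 3 → BWn T 6 2 (x, 0) 6 M B :=
  stepT (n := 3) (by omega) stage40
    (fun M B C O hx hC hn hs => BWn_mono (by omega) (stage13 M B C O hx hC hn hs))

/-- Breaker's reply to any first move of Maker, for the root `x`. -/
theorem reply_hub (x : Hub) (M : Finset (Sym2 Vtx)) (hM : M.card = 6) : AS x 6 M ∅ := by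
  have hC := Cfg.start x
  have hsum : ∑ b ∈ star x, wt M b ≤ 6 := (sum_wt_le M _ hC.disj).trans hM.le
  refine AS_cut (n := 5) (s := 6) (n' := 3) (s' := 3) stage33 (Finset.mem_singleton_self x) hC
    (card_star x) hsum (fun b hb => not_complete hC.valid (by omega) hb) (by omega) ?_
  intro t S h1 h2
  omega

end Pool.Agent.Lib.MP_aefbf4_co
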