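import Pool.Agent.Lib.MP_aefbf4_co.Defs

/-!
General facts on the percolation game: positional criteria for a win of Breaker (`BWn`) and for
the absence of a winning strategy of Breaker (`not_breakerWins`).
-/

namespace Pool.Agent.Lib.MP_aefbf4_co

open Classical

variable {V : Type*} [DecidableEq V]

/-- component of `v₀` avoiding a finite set `B` of edges -/
def comp (Λ : SimpleGraph V) (v₀ : V) (B : Finset (Sym2 V)) : Set V :=
  {v | (Λ.deleteEdges (B : Set (Sym2 V))).Reachable v₀ v}

/-- `m` is a legal set of `k` edges at a position in which the edges of `C` are claimed. -/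
def Legal (Λ : SimpleGraph V) (k : ℕ) (C m : Finset (Sym2 V)) : Prop :=
  (∀ e ∈ m, e ∈ Λ.edgeSet) ∧ m.card = k ∧ ∀ e ∈ m, e ∉ C

/-- Breaker wins within `n` more rounds from the position in which Maker has claimed `M`,
Breaker has claimed `B`, and Maker is to move. -/
def BWn (Λ : SimpleGraph V) (p q : ℕ) (v₀ : V) : ℕ → Finset (Sym2 V) → Finset (Sym2 V) → Prop
  | 0, _, B => (comp Λ v₀ B).Finite
  | n + 1, M, B => ∀ m, Legal Λ p (M ∪ B) m → ∃ b, Legal Λ q (M ∪ B ∪ m) b ∧
      BWn Λ p q v₀ n (M ∪ m) (B ∪ b)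

/-- Breaker's choice in a position. -/
noncomputable def choice (Λ : SimpleGraph V) (p q : ℕ) (v₀ : V) (M B m : Finset (Sym2 V)) :
    Finset (Sym2 V) :=
  if h : ∃ n, ∃ b, Legal Λ q (M ∪ B ∪ m) b ∧ BWn Λ p q v₀ n (M ∪ m) (B ∪ b) then
    (Nat.find_spec h).choose
  else if h : ∃ b, Legal Λ q (M ∪ B ∪ m) b then h.choose
  else ∅

noncomputable def stepPos (Λ : SimpleGraph V) (p q : ℕ) (v₀ : V)
    (P : Finset (Sym2 V) × Finset (Sym2 V)) (m : Finset (Sym2 V)) :
    Finset (Sym2 V) × Finset (Sym2 V) :=
  (P.1 ∪ m, P.2 ∪ choice Λ p q v₀ P.1 P.2 m)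

theorem choice_legal (Λ : SimpleGraph V) (p q : ℕ) (v₀ : V) (M B m : Finset (Sym2 V))
    (hE : ∀ C : Finset (Sym2 V), ∃ b, Legal Λ q C b) :
    Legal Λ q (M ∪ B ∪ m) (choice Λ p q v₀ M B m) := by
  unfold choice
  split_ifs with h h'
  · exact (Nat.find_spec h).choose_spec.1
  · exact h'.choose_spec
  · exact absurd (hE _) h'

theorem choice_spec (Λ : SimpleGraph V) (p q : ℕ) (v₀ : V) (M B m : Finset (Sym2 V)) (n : ℕ)
    (h : ∃ b, Legal Λ q (M ∪ B ∪ m) b ∧ BWn Λ p q v₀ n (M ∪ m) (B ∪ b)) :
    ∃ n' ≤ n, BWn Λ p q v₀ n' (M ∪ m) (B ∪ choice Λ p q v₀ M B m) := by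
  have h' : ∃ n, ∃ b, Legal Λ q (M ∪ B ∪ m) b ∧ BWn Λ p q v₀ n (M ∪ m) (B ∪ b) := ⟨n, h⟩
  refine ⟨Nat.find h', Nat.find_min' h' h, ?_⟩
  unfold choice
  rw [dif_pos h']
  exact (Nat.find_spec h').choose_spec.2

/-- In an infinite edge set there are always legal moves. -/
theorem exists_legal (Λ : SimpleGraph V) (hinf : Λ.edgeSet.Infinite) (k : ℕ)
    (C : Finset (Sym2 V)) : ∃ b, Legal Λ k C b := by
  have h1 : (Λ.edgeSet \ (C : Set (Sym2 V))).Infinite := hinf.sdiff C.finite_toSet
  obtain ⟨b, hb, hcard⟩ := h1.exists_subset_card_eq k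
  refine ⟨b, ?_, hcard, ?_⟩
  · intro e he; exact (hb he).1
  · intro e he; exact fun hc => (hb he).2 (by exact_mod_cast hc)

/-- Any set of at most `k` legal edges extends to a legal move. -/
theorem exists_legal_superset (Λ : SimpleGraph V) (hinf : Λ.edgeSet.Infinite) (k : ℕ)
    (C S : Finset (Sym2 V)) (hS : ∀ e ∈ S, e ∈ Λ.edgeSet) (hSC : ∀ e ∈ S, e ∉ C)
    (hk : S.card ≤ k) : ∃ b, Legal Λ k C b ∧ S ⊆ b := by
  obtain ⟨b, hb⟩ := exists_legal Λ hinf (k - S.card) (C ∪ S)
  refine ⟨b ∪ S, ⟨?_, ?_, ?_⟩, Finset.subset_union_right⟩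
  · intro e he
    rcases Finset.mem_union.1 he with h | h
    · exact hb.1 e h
    · exact hS e h
  · rw [Finset.card_union_of_disjoint, hb.2.1]
    · omega
    · rw [Finset.disjoint_left]
      intro e he heS
      exact hb.2.2 e he (Finset.mem_union_right _ heS)
  · intro e he
    rcases Finset.mem_union.1 he with h | h
    · exact fun hc => hb.2.2 e h (Finset.mem_union_left _ hc)
    · exact hSC e h

theorem mem_claimedBefore (F : Finset (Sym2 V)) (m b : ℕ → Finset (Sym2 V)) (n : ℕ)
    (e : Sym2 V) : e ∈ claimedBefore F m b n ↔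
      e ∈ (F ∪ (Finset.range n).biUnion m) ∪ (Finset.range n).biUnion b := by
  simp only [claimedBefore, Finset.mem_union, Finset.mem_biUnion, Finset.mem_range]
  constructor
  · rintro (h | ⟨i, hi, h | h⟩)
    · exact Or.inl (Or.inl h)
    · exact Or.inl (Or.inr ⟨i, hi, h⟩)
    · exact Or.inr ⟨i, hi, h⟩
  · rintro ((h | ⟨i, hi, h⟩) | ⟨i, hi, h⟩)
    · exact Or.inl h
    · exact Or.inr ⟨i, hi, Or.inl h⟩
    · exact Or.inr ⟨i, hi, Or.inr h⟩

theorem component_eq_comp (Λ : SimpleGraph V) (b : ℕ → Finset (Sym2 V)) (v₀ : V) (n : ℕ) :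
    component Λ b v₀ n = comp Λ v₀ ((Finset.range n).biUnion b) := by
  unfold component comp
  have : {e | ∃ i < n, e ∈ b i} = (((Finset.range n).biUnion b : Finset (Sym2 V)) :
      Set (Sym2 V)) := by
    ext e
    simp
  rw [this]

/-- Positional criterion for a winning strategy of Breaker. -/
theorem breakerWins_of_BWn (Λ : SimpleGraph V) (hinf : Λ.edgeSet.Infinite) (p q : ℕ) (v₀ : V)
    (F : Finset (Sym2 V)) (N : ℕ) (h : BWn Λ p q v₀ N F ∅) : BreakerWins Λ p q v₀ F := by
  let pos : List (Finset (Sym2 V)) → Finset (Sym2 V) × Finset (Sym2 V) :=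
    fun l => l.foldl (stepPos Λ p q v₀) (F, ∅)
  let σ : List (Finset (Sym2 V)) → Finset (Sym2 V) := fun l =>
    choice Λ p q v₀ (pos l.dropLast).1 (pos l.dropLast).2 (l.getLastD ∅)
  refine ⟨σ, ?_⟩
  intro m b hb
  have hpos : ∀ n, pos ((List.range n).map m) =
      (F ∪ (Finset.range n).biUnion m, (Finset.range n).biUnion b) := by
    intro n
    induction n with
    | zero => simp [pos]
    | succ n ih =>
      have hbn : b n = choice Λ p q v₀ (pos ((List.range n).map m)).1
          (pos ((List.range n).map m)).2 (m n) := by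
        rw [hb n]
        simp only [σ]
        rw [List.range_succ, List.map_append, List.map_singleton, List.dropLast_concat]
        simp
      have h1 : pos ((List.range (n + 1)).map m) =
          stepPos Λ p q v₀ (pos ((List.range n).map m)) (m n) := by
        simp only [pos]
        rw [List.range_succ, List.map_append, List.map_singleton, List.foldl_append]
        rfl
      rw [h1]
      unfold stepPos
      rw [← hbn, ih]
      simp only [Finset.range_add_one, Finset.biUnion_insert]
      refine Prod.ext ?_ ?_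
      · ext e; simp only [Finset.mem_union]; tauto
      · ext e; simp only [Finset.mem_union]; tauto
  have hbn : ∀ n, b n = choice Λ p q v₀ (F ∪ (Finset.range n).biUnion m)
      ((Finset.range n).biUnion b) (m n) := by
    intro n
    rw [hb n]
    simp only [σ]
    rw [List.range_succ, List.map_append, List.map_singleton, List.dropLast_concat, hpos n]
    simp
  constructor
  · intro n _
    have := choice_legal Λ p q v₀ (F ∪ (Finset.range n).biUnion m)
      ((Finset.range n).biUnion b) (m n) (exists_legal Λ hinf q)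
    rw [← hbn n] at this
    refine ⟨this.1, this.2.1, ?_⟩
    intro e he
    have h2 := this.2.2 e he
    rw [Finset.mem_union, not_or] at h2
    exact ⟨fun hc => h2.1 ((mem_claimedBefore F m b n e).1 hc), h2.2⟩
  · intro hm
    have key : ∀ k, ∀ n, BWn Λ p q v₀ k (F ∪ (Finset.range n).biUnion m)
        ((Finset.range n).biUnion b) →
        ∃ n, (comp Λ v₀ ((Finset.range n).biUnion b)).Finite := by
      intro k
      induction k using Nat.strong_induction_on with
      | _ k ih =>
        intro n hk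
        cases k with
        | zero => exact ⟨n, hk⟩
        | succ k =>
          have hleg : Legal Λ p ((F ∪ (Finset.range n).biUnion m) ∪
              (Finset.range n).biUnion b) (m n) := by
            refine ⟨(hm n).1, (hm n).2.1, ?_⟩
            intro e he hc
            exact (hm n).2.2 e he ((mem_claimedBefore F m b n e).2 hc)
          have hex := hk (m n) hleg
          obtain ⟨n', hn', hBW⟩ := choice_spec Λ p q v₀ _ _ (m n) k hex
          rw [← hbn n] at hBW
          refine ih n' (by omega) (n + 1) ?_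
          have e1 : F ∪ (Finset.range (n + 1)).biUnion m =
              (F ∪ (Finset.range n).biUnion m) ∪ m n := by
            rw [Finset.range_add_one, Finset.biUnion_insert]
            ext e; simp only [Finset.mem_union]; tauto
          have e2 : (Finset.range (n + 1)).biUnion b = (Finset.range n).biUnion b ∪ b n := by
            rw [Finset.range_add_one, Finset.biUnion_insert]
            ext e; simp only [Finset.mem_union]; tauto
          rw [e1, e2]
          exact hBW
    obtain ⟨n, hn⟩ := key N 0 (by simpa using h)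
    exact ⟨n, by rw [component_eq_comp]; exact hn⟩

/-- Positional criterion for the absence of a winning strategy of Breaker: a set `Inv` of
positions (Maker to move), containing the initial one, in which the component is infinite and
which Maker can maintain. -/
theorem not_breakerWins (Λ : SimpleGraph V) (p q : ℕ) (v₀ : V) (F : Finset (Sym2 V))
    (Inv : Finset (Sym2 V) → Finset (Sym2 V) → Prop) (h0 : Inv F ∅)
    (hinf : ∀ M B, Inv M B → (comp Λ v₀ B).Infinite)
    (hstep : ∀ M B, Inv M B → ∃ m, Legal Λ p (M ∪ B) m ∧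
      ∀ b, Legal Λ q (M ∪ B ∪ m) b → Inv (M ∪ m) (B ∪ b)) :
    ¬ BreakerWins Λ p q v₀ F := by
  rintro ⟨σ, hσ⟩
  -- Maker's choice
  let g : Finset (Sym2 V) → Finset (Sym2 V) → Finset (Sym2 V) := fun M B =>
    if h : ∃ m, Legal Λ p (M ∪ B) m ∧ ∀ b, Legal Λ q (M ∪ B ∪ m) b → Inv (M ∪ m) (B ∪ b)
    then h.choose else ∅
  have hg : ∀ M B, Inv M B → Legal Λ p (M ∪ B) (g M B) ∧
      ∀ b, Legal Λ q (M ∪ B ∪ g M B) b → Inv (M ∪ g M B) (B ∪ b) := by
    intro M B hI
    have h := hstep M B hI
    simp only [g]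
    rw [dif_pos h]
    exact h.choose_spec
  let S : ℕ → List (Finset (Sym2 V)) × Finset (Sym2 V) × Finset (Sym2 V) := fun n =>
    Nat.rec ([], F, ∅) (fun _ s =>
      (s.1 ++ [g s.2.1 s.2.2], s.2.1 ∪ g s.2.1 s.2.2, s.2.2 ∪ σ (s.1 ++ [g s.2.1 s.2.2]))) n
  have hS0 : S 0 = ([], F, ∅) := rfl
  have hSs : ∀ n, S (n + 1) = ((S n).1 ++ [g (S n).2.1 (S n).2.2],
      (S n).2.1 ∪ g (S n).2.1 (S n).2.2,
      (S n).2.2 ∪ σ ((S n).1 ++ [g (S n).2.1 (S n).2.2])) := fun n => rfl
  let m : ℕ → Finset (Sym2 V) := fun n => g (S n).2.1 (S n).2.2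
  let b : ℕ → Finset (Sym2 V) := fun n => σ ((List.range (n + 1)).map m)
  have hlist : ∀ n, (S n).1 = (List.range n).map m := by
    intro n
    induction n with
    | zero => simp [hS0]
    | succ n ih =>
      rw [hSs, List.range_succ, List.map_append, List.map_singleton, ← ih]
  have hM : ∀ n, (S n).2.1 = F ∪ (Finset.range n).biUnion m := by
    intro n
    induction n with
    | zero => simp [hS0]
    | succ n ih =>
      have : (S (n + 1)).2.1 = (S n).2.1 ∪ m n := by rw [hSs]
      rw [this, ih, Finset.range_add_one, Finset.biUnion_insert]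
      ext e; simp only [Finset.mem_union]; tauto
  have hB : ∀ n, (S n).2.2 = (Finset.range n).biUnion b := by
    intro n
    induction n with
    | zero => simp [hS0]
    | succ n ih =>
      have : (S (n + 1)).2.2 = (S n).2.2 ∪ b n := by
        rw [hSs]
        simp only [b]
        rw [List.range_succ, List.map_append, List.map_singleton, ← hlist n]
      rw [this, ih, Finset.range_add_one, Finset.biUnion_insert]
      ext e; simp only [Finset.mem_union]; tauto
  obtain ⟨h1, h2⟩ := hσ m b (fun n => rfl)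
  have hcl : ∀ n e, e ∈ claimedBefore F m b n ↔ e ∈ (S n).2.1 ∪ (S n).2.2 := by
    intro n e
    rw [mem_claimedBefore, hM, hB]
  have hall : ∀ n, Inv (S n).2.1 (S n).2.2 ∧ ∀ k < n, LegalMaker Λ p F m b k := by
    intro n
    induction n with
    | zero => exact ⟨h0, fun k hk => absurd hk (Nat.not_lt_zero k)⟩
    | succ n ih =>
      obtain ⟨hI, hk⟩ := ih
      have hgn := hg _ _ hI
      have hLM : LegalMaker Λ p F m b n := by
        refine ⟨hgn.1.1, hgn.1.2.1, ?_⟩
        intro e he hc
        exact hgn.1.2.2 e he ((hcl n e).1 hc)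
      have hk' : ∀ k ≤ n, LegalMaker Λ p F m b k := by
        intro k hkn
        rcases Nat.lt_or_ge k n with h | h
        · exact hk k h
        · have : k = n := le_antisymm hkn h
          rw [this]; exact hLM
      have hLB := h1 n hk'
      have hLeg : Legal Λ q ((S n).2.1 ∪ (S n).2.2 ∪ m n) (b n) := by
        refine ⟨hLB.1, hLB.2.1, ?_⟩
        intro e he hc
        rcases Finset.mem_union.1 hc with h | h
        · exact (hLB.2.2 e he).1 ((hcl n e).2 h)
        · exact (hLB.2.2 e he).2 h
      refine ⟨?_, fun k hk'' => hk' k (Nat.lt_succ_iff.1 hk'')⟩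
      have h3 := hgn.2 (b n) hLeg
      have e1 : (S (n + 1)).2.1 = (S n).2.1 ∪ g (S n).2.1 (S n).2.2 := by rw [hSs]
      have e2 : (S (n + 1)).2.2 = (S n).2.2 ∪ b n := by
        rw [hSs]
        simp only [b]
        rw [List.range_succ, List.map_append, List.map_singleton, ← hlist n]
      rw [e1, e2]
      exact h3
  obtain ⟨n, hn⟩ := h2 (fun n => (hall (n + 1)).2 n (Nat.lt_succ_self n))
  have := hinf _ _ (hall n).1
  rw [component_eq_comp, ← hB n] at hn
  exact this hn

end Pool.Agent.Lib.MP_aefbf4_co
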