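import Pool.Agent.Lib.MP_aefbf4_co.Strategy

/-!
The tree: the `4`-ary rooted tree (hubs are lists over `Fin 4`, the root hub is `[]`, the children
of the hub `z` are the hubs `c :: z`), in which every edge is replaced by a path of `7` edges, and
a pendant path of `6` edges is attached to the root hub.
-/

namespace Pool.Agent.Lib.MP_aefbf4_co

open Classical

/-- Hubs. -/
abbrev Hub := List (Fin 4)

/-- Vertices: `(z, 0)` is the hub `z`, and `(z, i)`, `1 ≤ i ≤ 6`, is the vertex at distance `i`
from `z` on the path from the hub `z` to its parent hub. -/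
abbrev Vtx := Hub × Fin 7

/-- The parent of a vertex (the top vertex `([], 6)` is its own parent). -/
def par : Vtx → Vtx
  | (z, i) => if h : i.val < 6 then (z, ⟨i.val + 1, by omega⟩) else
      match z with
      | [] => ([], 6)
      | _ :: y => (y, 0)

/-- The subdivided tree. -/
def T : SimpleGraph Vtx := SimpleGraph.fromRel (fun u v => par u = v)

/-- The top vertex. -/
def top : Vtx := ([], 6)

/-- The edge from a vertex to its parent. -/
def ed (u : Vtx) : Sym2 Vtx := s(u, par u)

def depth (u : Vtx) : ℕ := 7 * u.1.length + (6 - u.2.val)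

theorem par_lt (z : Hub) (i : Fin 7) (h : i.val < 6) : par (z, i) = (z, ⟨i.val + 1, by omega⟩) := by
  simp [par, h]

theorem par_cons (c : Fin 4) (y : Hub) : par (c :: y, 6) = (y, 0) := by
  simp [par]

theorem par_top : par ([], 6) = ([], 6) := by
  simp [par]

theorem par_cons' (c : Fin 4) (y : Hub) (i : Fin 7) (h : ¬ i.val < 6) :
    par (c :: y, i) = (y, 0) := by
  simp [par, h]

theorem depth_par (u : Vtx) (hu : u ≠ top) : depth (par u) + 1 = depth u := by
  obtain ⟨z, i⟩ := u
  by_cases h : i.val < 6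
  · rw [par_lt z i h]; simp [depth]; omega
  · have hi : i = 6 := by ext; simp; omega
    subst hi
    cases z with
    | nil => exact absurd rfl hu
    | cons c y => rw [par_cons]; simp [depth]; omega

theorem par_ne (u : Vtx) (hu : u ≠ top) : par u ≠ u := by
  intro h
  have := depth_par u hu
  rw [h] at this
  omega

theorem ed_inj {u v : Vtx} (hu : u ≠ top) (hv : v ≠ top) (h : ed u = ed v) : u = v := by
  unfold ed at h
  rw [Sym2.eq_iff] at h
  rcases h with h | h
  · exact h.1
  · have h1 := depth_par u hu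
    have h2 := depth_par v hv
    rw [h.2] at h1
    rw [← h.1] at h2
    omega

theorem adj_iff (u v : Vtx) : T.Adj u v ↔ (u ≠ top ∧ par u = v) ∨ (v ≠ top ∧ par v = u) := by
  unfold T
  rw [SimpleGraph.fromRel_adj]
  constructor
  · rintro ⟨hne, h | h⟩
    · left
      refine ⟨?_, h⟩
      rintro rfl
      exact hne (h ▸ par_top.symm)
    · right
      refine ⟨?_, h⟩
      rintro rfl
      exact hne (h ▸ par_top)
  · rintro (⟨hu, h⟩ | ⟨hv, h⟩)
    · exact ⟨fun huv => par_ne u hu (h.trans huv.symm), Or.inl h⟩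
    · exact ⟨fun huv => par_ne v hv (h.trans huv), Or.inr h⟩

theorem mem_edgeSet_iff (x : Sym2 Vtx) : x ∈ T.edgeSet ↔ ∃ u, u ≠ top ∧ ed u = x := by
  induction x using Sym2.ind with
  | _ a b =>
    rw [SimpleGraph.mem_edgeSet, adj_iff]
    constructor
    · rintro (⟨hu, h⟩ | ⟨hv, h⟩)
      · exact ⟨a, hu, by rw [ed, h]⟩
      · exact ⟨b, hv, by rw [ed, h, Sym2.eq_swap]⟩
    · rintro ⟨u, hu, h⟩
      unfold ed at h
      rw [Sym2.eq_iff] at h
      rcases h with ⟨rfl, rfl⟩ | ⟨rfl, rfl⟩
      · exact Or.inl ⟨hu, rfl⟩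
      · exact Or.inr ⟨hu, rfl⟩

theorem ed_mem (u : Vtx) (hu : u ≠ top) : ed u ∈ T.edgeSet := (mem_edgeSet_iff _).2 ⟨u, hu, rfl⟩

theorem adj_par (u : Vtx) (hu : u ≠ top) : T.Adj u (par u) := (adj_iff _ _).2 (Or.inl ⟨hu, rfl⟩)

theorem cons_ne_top (c : Fin 4) (z : Hub) (i : Fin 7) : ((c :: z, i) : Vtx) ≠ top := by
  intro h; simp [top] at h

theorem ne_top_of_ne_nil {z : Hub} (hz : z ≠ []) (i : Fin 7) : ((z, i) : Vtx) ≠ top := by
  intro h; simp [top] at h; exact hz h.1

theorem ne_top_of_lt (z : Hub) (i : Fin 7) (hi : i.val < 6) : ((z, i) : Vtx) ≠ top := by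
  intro h; simp [top] at h; rw [h.2] at hi; simp at hi

/-- The children of a vertex. -/
theorem child_cases {v : Vtx} {z : Hub} {i : Fin 7} (hv : v ≠ top) (h : par v = (z, i)) :
    (∃ j : Fin 7, j.val + 1 = i.val ∧ v = (z, j)) ∨ (i = 0 ∧ ∃ c, v = (c :: z, 6)) := by
  obtain ⟨y, j⟩ := v
  by_cases hj : j.val < 6
  · rw [par_lt y j hj] at h
    left
    refine ⟨j, ?_, ?_⟩
    · have := congrArg (fun p => p.2.val) h
      simpa using this
    · have := congrArg Prod.fst h
      simp at this
      rw [this]
  · have hj6 : j = 6 := by ext; simp; omega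
    subst hj6
    cases y with
    | nil => exact absurd rfl hv
    | cons c y =>
      rw [par_cons] at h
      right
      have h1 := congrArg Prod.fst h
      have h2 := congrArg Prod.snd h
      simp at h1 h2
      exact ⟨h2.symm, c, by rw [h1]⟩

theorem reachable_top (u : Vtx) : T.Reachable u top := by
  induction hd : depth u using Nat.strong_induction_on generalizing u with
  | _ n ih =>
    by_cases hu : u = top
    · rw [hu]
    · have h1 := depth_par u hu
      have h2 := ih (depth (par u)) (by omega) (par u) rfl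
      exact (SimpleGraph.Adj.reachable (adj_par u hu)).trans h2

theorem T_connected : T.Connected := by
  have : Nonempty Vtx := ⟨top⟩
  exact ⟨fun u v => (reachable_top u).trans (reachable_top v).symm⟩

theorem T_edgeSet_infinite : T.edgeSet.Infinite := by
  have hinj : Function.Injective (fun n : ℕ => ed ((List.replicate n 0, 0) : Vtx)) := by
    intro a b h
    have := ed_inj (ne_top_of_lt _ 0 (by simp)) (ne_top_of_lt _ 0 (by simp)) h
    have h2 := congrArg (fun p => p.1.length) this
    simpa using h2
  refine Set.Infinite.mono ?_ (Set.infinite_range_of_injective hinj)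
  rintro _ ⟨n, rfl⟩
  exact ed_mem _ (ne_top_of_lt _ 0 (by simp))

end Pool.Agent.Lib.MP_aefbf4_co
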