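import Pool.Agent.Lib.MP_aefbf4_co.Tree

/-!
The graph `T` is a tree with maximum degree `5`.
-/

namespace Pool.Agent.Lib.MP_aefbf4_co

theorem depth_par_le (u : Vtx) : depth (par u) ≤ depth u := by
  by_cases h : u = top
  · rw [h]; exact le_of_eq (by rw [show top = ([], 6) from rfl, par_top])
  · have := depth_par u h; omega

theorem depth_iterate_le (k : ℕ) (u : Vtx) : depth (par^[k] u) ≤ depth u := by
  induction k generalizing u with
  | zero => exact le_rfl
  | succ k ih =>
    rw [Function.iterate_succ_apply]
    exact (ih (par u)).trans (depth_par_le u)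

theorem T_isAcyclic : T.IsAcyclic := by
  rw [SimpleGraph.isAcyclic_iff_forall_adj_isBridge]
  -- it suffices to treat the edge from `u` to its parent
  have key : ∀ u : Vtx, u ≠ top → ¬ (T.deleteEdges {s(u, par u)}).Reachable u (par u) := by
    intro u hu hr
    have hD : ∀ v, (T.deleteEdges {s(u, par u)}).Reachable u v →
        ∃ k, par^[k] v = u := by
      intro v hv
      rw [SimpleGraph.reachable_iff_reflTransGen] at hv
      induction hv with
      | refl => exact ⟨0, rfl⟩
      | @tail a b hab hbc ih =>
        obtain ⟨k, hk⟩ := ih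
        rw [SimpleGraph.deleteEdges_adj] at hbc
        obtain ⟨hadj, hne⟩ := hbc
        have hne' : s(a, b) ≠ s(u, par u) := fun h => hne (by simpa using h)
        rcases (adj_iff a b).1 hadj with ⟨hat, hp⟩ | ⟨hbt, hp⟩
        · cases k with
          | zero =>
            exfalso
            apply hne'
            rw [← hp]
            have : a = u := hk
            rw [this]
          | succ k =>
            rw [Function.iterate_succ_apply, hp] at hk
            exact ⟨k, hk⟩
        · exact ⟨k + 1, by rw [Function.iterate_succ_apply, hp]; exact hk⟩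
    obtain ⟨k, hk⟩ := hD _ hr
    have h1 := depth_iterate_le k (par u)
    rw [hk] at h1
    have h2 := depth_par u hu
    omega
  intro v w hadj
  rw [SimpleGraph.isBridge_iff]
  rcases (adj_iff v w).1 hadj with ⟨hv, hp⟩ | ⟨hw, hp⟩
  · rw [← hp]; exact key v hv
  · rw [← hp, Sym2.eq_swap]
    intro h
    exact key w hw h.symm

theorem T_isTree : T.IsTree := ⟨T_connected, T_isAcyclic⟩

theorem T_degree (v : Vtx) : (T.neighborSet v).encard ≤ 5 := by
  classical
  obtain ⟨z, i⟩ := v
  let S : Finset Vtx := insert (par (z, i)) (if i = 0 then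
    Finset.univ.image (fun c : Fin 4 => ((c :: z, 6) : Vtx)) else {(z, i - 1)})
  have hS : S.card ≤ 5 := by
    refine (Finset.card_insert_le _ _).trans ?_
    have : (if i = 0 then Finset.univ.image (fun c : Fin 4 => ((c :: z, 6) : Vtx))
        else {(z, i - 1)}).card ≤ 4 := by
      split_ifs
      · exact Finset.card_image_le.trans (by simp)
      · simp
    omega
  have hsub : T.neighborSet (z, i) ⊆ (S : Set Vtx) := by
    intro w hw
    rw [SimpleGraph.mem_neighborSet, adj_iff] at hw
    simp only [S, Finset.coe_insert, Set.mem_insert_iff, Finset.mem_coe]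
    rcases hw with ⟨-, hp⟩ | ⟨hw, hp⟩
    · exact Or.inl hp.symm
    · right
      rcases child_cases hw hp with ⟨j, hj, rfl⟩ | ⟨hi, c, rfl⟩
      · have hi0 : i ≠ 0 := by intro h; rw [h] at hj; simp at hj
        rw [if_neg hi0, Finset.mem_singleton]
        have : i - 1 = j := by
          ext
          rw [Fin.sub_val_of_le (by rw [Fin.le_def]; simp; omega)]
          simp
          omega
        rw [this]
      · rw [if_pos hi]
        exact Finset.mem_image_of_mem _ (Finset.mem_univ c)
  calc (T.neighborSet (z, i)).encard ≤ (S : Set Vtx).encard := Set.encard_le_encard hsub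
    _ = S.card := Set.encard_coe_eq_coe_finsetCard S
    _ ≤ 5 := by exact_mod_cast hS

end Pool.Agent.Lib.MP_aefbf4_co
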